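import Pool.Agent.Lib.MP_291637_al.EndVF

/-!
# The weak triple theorem from two machine statements
-/

set_option autoImplicit false

namespace Pool.Agent.BG

variable {V : Type*} {f : V → V → Bool}

/-- The structure conjugated by the involution of another structure. -/
def Str.by (A B : Str f) : Str f := A.conj B.perm B.perm_mem

theorem Str.by_c (A B : Str f) (x : V) : (A.by B).c x = B.c (A.c (B.c x)) := rfl

theorem Str.by_h (A B : Str f) (x : V) : (A.by B).h x = A.h (B.c x) := rfl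

/-- Commuting structures `A`, `B` and a third structure `D`. -/
def CC (f : V → V → Bool) : Prop := ∀ A B D : Str f, (∀ x, A.c (B.c x) = B.c (A.c x)) → NR A B →
  NR A D → NR B D → ∀ y, D.h (A.c (B.c (D.c (B.c (A.c y))))) = D.h y

/-- The weak triple theorem with additional hypotheses. -/
def VF11 (f : V → V → Bool) : Prop := ∀ P Q R : Str f, NR P Q → NR P R → NR Q R →
  NR P (Q.by R) →
  (∀ y, Q.h (P.c ((P.by R).c (Q.c ((P.by R).c (P.c y))))) = Q.h y) →
  (∀ y, P.h (Q.c ((Q.by R).c (P.c ((Q.by R).c (Q.c y))))) = P.h y) →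
  ∀ x, P.h (Q.c x) ≠ P.h x → P.h (R.c x) ≠ P.h x →
    P.h (R.c (Q.c (P.c (Q.c x)))) ≠ P.h x

/-- All pairs of involutions satisfy the relation of order four. -/
theorem rel4 (hf : ∀ x y, f x y = f y x) (A B : Str f) (x : V) :
    A.c (B.c (A.c (B.c x))) = B.c (A.c (B.c (A.c x))) := by
  have h := A.commute_c_of_cut hf (A.by B).perm_mem (fun x => h_qpq hf A B x) x
  exact h.symm

theorem rel8 (hf : ∀ x y, f x y = f y x) (A B : Str f) (x : V) :
    A.c (B.c (A.c (B.c (A.c (B.c (A.c (B.c x))))))) = x := by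
  rw [rel4 hf A B x, B.cc, A.cc, B.cc, A.cc]

/-- A structure and its conjugate commute. -/
theorem by_comm (hf : ∀ x y, f x y = f y x) (A B : Str f) (x : V) :
    A.c ((A.by B).c x) = (A.by B).c (A.c x) := rel4 hf A B x

theorem by_NR (hf : ∀ x y, f x y = f y x) (A B : Str f) : NR A (A.by B) :=
  fun x => Or.inl (h_qpq hf A B x)

/-- Conjugation of the condition. -/
theorem NR.by {A B R : Str f} (h : NR A (B.by R)) : NR (A.by R) B := by
  intro x
  have h1 := h (R.c x)
  simp only [Str.by_c, Str.by_h, R.cc] at h1 ⊢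
  exact h1

/-- If an automorphism `g` of order two satisfies the cut condition, then `(g D)^4 = 1`. -/
theorem rel_of_cut (hf : ∀ x y, f x y = f y x) (D : Str f) {g : Equiv.Perm V} (hg : g ∈ Aut f)
    (hgg : ∀ x, g (g x) = x) (hcut : ∀ y, D.h (g (D.c (g y))) = D.h y) (x : V) :
    g (D.c (g (D.c (g (D.c (g (D.c x))))))) = x := by
  have h1 : g * D.perm * g ∈ Aut f := mul_mem (mul_mem hg D.perm_mem) hg
  have h2 := D.commute_c_of_cut hf h1 hcut
  have h3 : ∀ x, g (D.c (g (D.c x))) = D.c (g (D.c (g x))) := h2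
  rw [h3 x, D.cc, hgg, D.cc, hgg]

/-- The rainbow case. -/
theorem vf_rb (hf : ∀ x y, f x y = f y x) {P Q R : Str f} (hRB : RB P (Q.by R)) {x : V}
    (hQ : P.h (Q.c x) ≠ P.h x) (hR : P.h (R.c x) ≠ P.h x) :
    P.h (R.c (Q.c (P.c (Q.c x)))) ≠ P.h x := by
  have h1 := (hRB (R.c x)).1
  simp only [Str.by_c] at h1
  rw [R.cc] at h1
  have h2 : P.h (R.c (Q.c x)) ≠ P.h (Q.c x) := by
    revert h1 hQ hR
    cases P.h (R.c (Q.c x)) <;> cases P.h (R.c x) <;> cases P.h (Q.c x) <;> cases P.h x <;> simp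
  have h3 : P.h (R.c (P.c (Q.c x))) ≠ P.h (P.c (Q.c x)) := fun e =>
    h2 ((Str.cross_c hf P R (Q.c x)).1 e)
  rw [P.hc] at h3
  have h4 := (hRB (R.c (P.c (Q.c x)))).1
  simp only [Str.by_c] at h4
  rw [R.cc] at h4
  revert h4 h3 hQ
  cases P.h (R.c (Q.c (P.c (Q.c x)))) <;> cases P.h (R.c (P.c (Q.c x))) <;>
    cases P.h (Q.c x) <;> cases P.h x <;> simp

/-- The weak triple theorem from the two machine statements. -/
theorem vf_of (hf : ∀ x y, f x y = f y x) (hCC : CC f) (h11 : VF11 f) : VF f := by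
  intro P Q R hPQ hPR hQR _ x hQ hR
  rcases (tt hf).rb P (Q.by R) with h | h
  · exact vf_rb hf h hQ hR
  · have h1 : NR (P.by R) Q := h.by
    refine h11 P Q R hPQ hPR hQR h ?_ ?_ x hQ hR
    · exact hCC P (P.by R) Q (by_comm hf P R) (by_NR hf P R) hPQ h1
    · exact hCC Q (Q.by R) P (by_comm hf Q R) (by_NR hf Q R) hPQ.symm h.symm

/-- The relation of order four for `P`, its conjugate and `Q`. -/
theorem rel20 (hf : ∀ x y, f x y = f y x) {P Q R : Str f}
    (h : ∀ y, Q.h (P.c ((P.by R).c (Q.c ((P.by R).c (P.c y))))) = Q.h y) (x : V) :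
    P.c ((P.by R).c (Q.c (P.c ((P.by R).c (Q.c (P.c ((P.by R).c (Q.c (P.c ((P.by R).c
      (Q.c x))))))))))) = x := by
  have hg : P.perm * (P.by R).perm ∈ Aut f := mul_mem P.perm_mem (P.by R).perm_mem
  refine rel_of_cut hf Q hg ?_ ?_ x
  · intro x
    change P.c ((P.by R).c (P.c ((P.by R).c x))) = x
    rw [by_comm hf P R, P.cc, (P.by R).cc]
  · intro y
    change Q.h (P.c ((P.by R).c (Q.c (P.c ((P.by R).c y))))) = Q.h y
    rw [by_comm hf P R y]
    exact h y

end Pool.Agent.BG
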