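import Pool.Agent.Lib.MP_291637_al.Setup

/-!
# Basic consequences of primitivity

Connectedness, infinite suborbits, infinitely many neighbours of the central involution, and the
finiteness of the group of periods of the cross colouring.
-/

set_option autoImplicit false

namespace Pool.Agent.BG

variable {P : Type} [AddCommGroup P]

theorem app_inv {V : Type*} (g : Equiv.Perm V) (x : V) : g (g⁻¹ x) = x := by simp

section Group

variable [Pruf P]

theorem isTorsion_AA : IsAddTorsion (AA P) := by
  intro x
  obtain ⟨n, hn, h⟩ := Pruf.tors x.1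
  rw [isOfFinAddOrder_iff_nsmul_eq_zero]
  refine ⟨2 * n, by have := hn.pos; omega, ?_⟩
  refine Prod.ext ?_ ?_
  · simp only [Prod.smul_fst, Prod.fst_zero]
    rw [mul_nsmul', h, nsmul_zero]
  · simp only [Prod.smul_snd, Prod.snd_zero]
    rw [mul_nsmul]
    have : ∀ z : ZMod 2, (2 : ℕ) • z = 0 := by decide
    rw [this, nsmul_zero]

theorem finite_closure {T : Set (AA P)} (hT : T.Finite) : Finite (AddSubgroup.closure T) := by
  have : AddGroup.FG (AddSubgroup.closure T) := by
    rw [AddGroup.fg_iff_addSubgroup_fg]
    exact ⟨hT.toFinset, by simp⟩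
  exact AddCommGroup.finite_of_fg_isAddTorsion _ (isTorsion_AA.addSubgroup _)

theorem infinite_AA : Infinite (AA P) := by
  have : Infinite P := Pruf.inf
  infer_instance

theorem top_of_infinite {M : AddSubgroup (AA P)} (hc : cA ∈ M) (h : (M : Set (AA P)).Infinite) :
    M = ⊤ := by
  have key : ∀ x : AA P, x ∈ M ↔ ((x.1, 0) : AA P) ∈ M := by
    intro x
    obtain ⟨u, e⟩ := x
    have he : e = 0 ∨ e = 1 := by revert e; decide
    rcases he with rfl | rfl
    · rfl
    · have : ((u, 1) : AA P) = (u, 0) + cA := by
        refine Prod.ext (by simp [cA]) (by simp [cA])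
      change ((u, 1) : AA P) ∈ M ↔ ((u, 0) : AA P) ∈ M
      rw [this]
      exact (AddSubgroup.add_mem_cancel_right M hc)
  rcases Pruf.sub (M.comap (AddMonoidHom.inl P (ZMod 2))) with h1 | ⟨h1, -⟩
  · rw [eq_top_iff]
    intro x _
    rw [key]
    have : x.1 ∈ M.comap (AddMonoidHom.inl P (ZMod 2)) := by rw [h1]; trivial
    exact this
  · exfalso
    apply h
    have h2 : ((M.comap (AddMonoidHom.inl P (ZMod 2)) : Set P) ×ˢ (Set.univ : Set (ZMod 2))).Finite :=
      Set.Finite.prod (Set.toFinite _) Set.finite_univ
    refine h2.subset ?_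
    intro x hx
    exact ⟨(key x).1 hx, trivial⟩

end Group

namespace Sit

variable (S : Sit P)

/-- An equivalence relation which contains a nontrivial relation invariant under automorphisms is
universal. -/
theorem univ_of {r : Dic P → Dic P → Prop} (hinv : ∀ g ∈ Aut S.f, ∀ x y, r x y → r (g x) (g y))
    (hne : ∃ x y, x ≠ y ∧ r x y) (e : Setoid (Dic P)) (he : ∀ x y, r x y → e x y) (x y : Dic P) :
    e x y := by
  have hprim := S.prim (Relation.EqvGen.setoid r) (by
    intro g hg x y hxy
    change Relation.EqvGen r x y at hxy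
    change Relation.EqvGen r (g x) (g y)
    induction hxy with
    | rel x y h => exact Relation.EqvGen.rel _ _ (hinv g hg x y h)
    | refl x => exact Relation.EqvGen.refl _
    | symm x y _ ih => exact Relation.EqvGen.symm _ _ ih
    | trans x y z _ _ ih1 ih2 => exact Relation.EqvGen.trans _ _ _ ih1 ih2)
  rcases hprim with h | h
  · exfalso
    obtain ⟨x, y, hxy, hr⟩ := hne
    have : (Relation.EqvGen.setoid r) x y := Relation.EqvGen.rel _ _ hr
    rw [h] at this
    exact hxy this
  · have h1 : (Relation.EqvGen.setoid r) x y := by rw [h]; trivial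
    have h2 : ∀ x y, Relation.EqvGen r x y → e x y := by
      intro x y h2
      induction h2 with
      | rel x y h => exact he x y h
      | refl x => exact e.refl x
      | symm x y _ ih => exact e.symm ih
      | trans x y z _ _ ih1 ih2 => exact e.trans ih1 ih2
    exact h2 x y h1

/-- The relation of being adjacent. -/
theorem univ_true (e : Setoid (Dic P)) (he : ∀ x y, S.f x y = true → e x y) (x y : Dic P) :
    e x y :=
  S.univ_of (r := fun x y => S.f x y = true) (fun g hg x y h => by rw [hg, h])
    ⟨1, Dic.c, Dic.c_ne_one.symm, S.edge⟩ e he x y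

/-- The relation of being not adjacent and distinct. -/
theorem univ_false (e : Setoid (Dic P)) (he : ∀ x y, x ≠ y → S.f x y = false → e x y)
    (x y : Dic P) : e x y :=
  S.univ_of (r := fun x y => x ≠ y ∧ S.f x y = false)
    (fun g hg x y h => ⟨fun e => h.1 (g.injective e), by rw [hg, h.2]⟩)
    (by obtain ⟨x, y, h1, h2⟩ := S.nonedge; exact ⟨x, y, h1, h1, h2⟩) e
    (fun x y h => he x y h.1 h.2) x y

theorem left_mem (z : Dic P) : Equiv.mulLeft z ∈ Aut S.f := fun x y => S.inv z x y

theorem mem_of_inv_mul {M : AddSubgroup (AA P)} (hc : cA ∈ M) {x y : Dic P}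
    (h : (x⁻¹ * y).a ∈ M) : y.a - x.a ∈ M := by
  obtain ⟨a, i⟩ := x
  obtain ⟨b, j⟩ := y
  cases i
  · rw [Dic.inv_f, Dic.mul_f] at h
    simpa [sub_eq_add_neg, add_comm] using h
  · cases j
    · rw [Dic.inv_t, Dic.mul_tf] at h
      have h1 : a + cA - b - cA ∈ M := M.sub_mem h hc
      have h2 := M.neg_mem h1
      have : -(a + cA - b - cA) = b - a := by abel
      rwa [this] at h2
    · rw [Dic.inv_t, Dic.mul_tt] at h
      have h1 : a + cA - b + cA - cA - cA ∈ M := M.sub_mem (M.sub_mem h hc) hc
      have h2 := M.neg_mem h1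
      have : -(a + cA - b + cA - cA - cA) = b - a := by abel
      rwa [this] at h2

variable [Pruf P]

/-- Nontrivial invariant relations have infinite neighbourhoods. -/
theorem infinite_of {r : Dic P → Dic P → Prop}
    (hinv : ∀ g ∈ Aut S.f, ∀ x y, r x y → r (g x) (g y))
    (hne : ∃ x y, x ≠ y ∧ r x y) : {y | r 1 y}.Infinite := by
  intro hfin
  set T : Set (AA P) := (fun y : Dic P => y.a) '' {y | r 1 y} ∪ {cA} with hT
  have hTfin : T.Finite := (hfin.image _).union (Set.finite_singleton _)
  have hM := finite_closure hTfin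
  have hc : (cA : AA P) ∈ AddSubgroup.closure T := AddSubgroup.subset_closure (Or.inr rfl)
  have huniv := S.univ_of hinv hne
    { r := fun x y => y.a - x.a ∈ AddSubgroup.closure T
      iseqv :=
        { refl := fun x => by rw [sub_self]; exact zero_mem _
          symm := fun {x y} h => by
            have := neg_mem h
            rwa [neg_sub] at this
          trans := fun {x y z} h1 h2 => by
            have := add_mem h2 h1
            rwa [sub_add_sub_cancel] at this } }
    (by
      intro x y h
      apply mem_of_inv_mul hc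
      have h1 := hinv _ (S.left_mem x⁻¹) x y h
      simp only [Equiv.coe_mulLeft, inv_mul_cancel] at h1
      exact AddSubgroup.subset_closure (Or.inl ⟨_, h1, rfl⟩))
  have : Infinite (AA P) := infinite_AA
  apply Set.infinite_univ (α := AA P)
  refine (Set.toFinite (AddSubgroup.closure T : Set (AA P))).subset ?_
  intro x _
  have := huniv 1 ⟨x, false⟩
  change x - 0 ∈ _ at this
  rwa [sub_zero] at this

theorem infinite_nbr : {y | S.f 1 y = true}.Infinite :=
  S.infinite_of (r := fun x y => S.f x y = true) (fun g hg x y h => by rw [hg, h])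
    ⟨1, Dic.c, Dic.c_ne_one.symm, S.edge⟩

theorem infinite_non : {y | (1 : Dic P) ≠ y ∧ S.f 1 y = false}.Infinite :=
  S.infinite_of (r := fun x y => x ≠ y ∧ S.f x y = false)
    (fun g hg x y h => ⟨fun e => h.1 (g.injective e), by rw [hg, h.2]⟩)
    (by obtain ⟨x, y, h1, h2⟩ := S.nonedge; exact ⟨x, y, h1, h1, h2⟩)

/-- The set of points which separate the identity and the central involution is infinite. -/
theorem infinite_D : {z | S.f 1 z ≠ S.f Dic.c z}.Infinite := by
  intro hfin
  have hD : ∀ x y, {z | S.f x z ≠ S.f y z}.Finite := by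
    intro x y
    refine S.univ_true
      { r := fun x y => {z | S.f x z ≠ S.f y z}.Finite
        iseqv :=
          { refl := fun x => by simp
            symm := fun {x y} h => by
              refine h.subset ?_
              intro z hz
              exact Ne.symm hz
            trans := fun {x y z} h1 h2 => by
              refine (h1.union h2).subset ?_
              intro w hw
              by_cases e : S.f x w = S.f y w
              · right
                change S.f y w ≠ S.f z w
                rw [← e]; exact hw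
              · left; exact e } } ?_ x y
    intro x y hxy
    obtain ⟨g, hg, rfl, rfl⟩ := S.homog x y hxy
    refine (hfin.image g).subset ?_
    intro z hz
    refine ⟨g⁻¹ z, ?_, by simp⟩
    intro e
    apply hz
    have e1 := hg 1 (g⁻¹ z)
    have e2 := hg Dic.c (g⁻¹ z)
    simp only [app_inv] at e1 e2
    rw [e1, e2, e]
  set B : Dic P → Set (Dic P) := fun x => {y | (1 : Dic P) ≠ y ∧ S.f 1 y = false ∧ S.f x y = true}
    with hB
  have hBfin : ∀ x, (B x).Finite := by
    intro x
    refine (hD 1 x).subset ?_
    rintro y ⟨-, h1, h2⟩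
    change S.f 1 y ≠ S.f x y
    rw [h1, h2]; decide
  have hBcard : ∀ x, S.f 1 x = true → (B x).ncard ≤ (B Dic.c).ncard := by
    intro x hx
    obtain ⟨g, hg, hg1, hg2⟩ := S.homog 1 x hx
    have : B x ⊆ g '' B Dic.c := by
      rintro y ⟨h0, h1, h2⟩
      refine ⟨g⁻¹ y, ⟨?_, ?_, ?_⟩, by simp⟩
      · intro e
        apply h0
        rw [← hg1, e]; simp
      · have := hg 1 (g⁻¹ y)
        rw [hg1] at this
        simp only [app_inv] at this
        rw [← this, h1]
      · have := hg Dic.c (g⁻¹ y)
        rw [hg2] at this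
        simp only [app_inv] at this
        rw [← this, h2]
    refine (Set.ncard_le_ncard this ((hBfin _).image _)).trans ?_
    exact Set.ncard_image_le (hBfin _)
  obtain ⟨F, hF, hFcard⟩ := (S.infinite_non).exists_subset_card_eq ((B Dic.c).ncard + 1)
  have hbad : (⋃ y ∈ F, {x | S.f 1 x ≠ S.f y x}).Finite := by
    refine Set.Finite.biUnion F.finite_toSet ?_
    intro y _
    exact hD 1 y
  obtain ⟨x, hx, hx'⟩ := (S.infinite_nbr).exists_notMem_finite hbad
  have hsub : (F : Set (Dic P)) ⊆ B x := by
    intro y hy
    have h1 := hF hy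
    refine ⟨h1.1, h1.2, ?_⟩
    by_contra hne
    apply hx'
    refine Set.mem_iUnion₂.2 ⟨y, hy, ?_⟩
    change S.f 1 x ≠ S.f y x
    rw [hx, S.symm y x]
    exact Ne.symm hne
  have h1 := Set.ncard_le_ncard hsub (hBfin x)
  rw [Set.ncard_coe_finset, hFcard] at h1
  have h2 := hBcard x hx
  omega

/-- The differences at which the central involution changes the colour. -/
def D : Set (AA P) := {d | S.f0 d ≠ S.f0 (d + cA)}

omit [Pruf P] in
theorem f_c (z : Dic P) : S.f Dic.c z = match z with
    | ⟨d, false⟩ => S.f0 (d + cA)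
    | ⟨d, true⟩ => S.g d := by
  obtain ⟨d, i⟩ := z
  cases i
  · rw [Dic.c, f_ff, sub_cA]
  · rw [Dic.c, f_ft, sub_cA, g_add_cA]

theorem D_infinite : S.D.Infinite := by
  intro hfin
  apply S.infinite_D
  refine (hfin.image (fun d => (⟨d, false⟩ : Dic P))).subset ?_
  rintro ⟨d, i⟩ hd
  cases i
  · refine ⟨d, ?_, rfl⟩
    change S.f ⟨0, false⟩ ⟨d, false⟩ ≠ _ at hd
    rw [f_c] at hd
    exact hd
  · exfalso
    apply hd
    rw [f_c]
    rfl

theorem closure_D : AddSubgroup.closure S.D = ⊤ := by
  obtain ⟨d, hd⟩ := S.D_infinite.nonempty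
  have hd' : d + cA ∈ S.D := by
    change S.f0 (d + cA) ≠ S.f0 (d + cA + cA)
    rw [add_cA_add]
    exact Ne.symm hd
  have hc : (cA : AA P) ∈ AddSubgroup.closure S.D := by
    have := AddSubgroup.sub_mem _ (AddSubgroup.subset_closure hd') (AddSubgroup.subset_closure hd)
    rwa [add_sub_cancel_left] at this
  exact top_of_infinite hc (S.D_infinite.mono AddSubgroup.subset_closure)

omit [Pruf P] in
theorem D_neg {d : AA P} (hd : d ∈ S.D) : -d ∈ S.D := by
  change S.f0 (-d) ≠ S.f0 (-d + cA)
  rw [f0_neg, show -d + cA = -(d + cA) by rw [neg_add, neg_cA], f0_neg]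
  exact hd

/-- A nonempty set of elements of `A` closed under translation by the elements of `D` is
everything. -/
theorem D_univ {U : Set (AA P)} (hne : U.Nonempty) (hU : ∀ x ∈ U, ∀ d ∈ S.D, x + d ∈ U)
    (y : AA P) : y ∈ U := by
  obtain ⟨x, hx⟩ := hne
  have key : ∀ d ∈ AddSubgroup.closure S.D, ∀ x ∈ U, x + d ∈ U := by
    intro d hd
    induction hd using AddSubgroup.closure_induction_left with
    | zero => intro x hx; rwa [add_zero]
    | add_left d hd e _ ih => intro x hx; rw [← add_assoc]; exact ih _ (hU x hx d hd)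
    | neg_add_cancel d hd e _ ih =>
      intro x hx; rw [← add_assoc]; exact ih _ (hU x hx _ (S.D_neg hd))
  have := key (y - x) (by rw [closure_D]; trivial) x hx
  rwa [add_sub_cancel] at this

/-- The group of periods of the cross colouring. -/
def L : AddSubgroup (AA P) where
  carrier := {u | ∀ x, S.g (x + u) = S.g x}
  add_mem' {u v} hu hv x := by rw [← add_assoc, hv, hu]
  zero_mem' x := by rw [add_zero]
  neg_mem' {u} hu x := by
    have := hu (x + -u)
    rw [neg_add_cancel_right] at this
    exact this.symm

omit [Pruf P] in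
theorem mem_L {u : AA P} : u ∈ S.L ↔ ∀ x, S.g (x + u) = S.g x := Iff.rfl

omit [Pruf P] in
theorem cA_mem_L : cA ∈ S.L := fun x => S.g_add_cA x

omit [Pruf P] in
theorem g_not_const : ¬ ∀ x, S.g x = S.g 0 := by
  intro hconst
  have hcross : ∀ x y : Dic P, x.i ≠ y.i → S.f x y = S.g 0 := by
    rintro ⟨a, i⟩ ⟨b, j⟩ hij
    cases i <;> cases j
    · exact absurd rfl hij
    · rw [f_ft, hconst]
    · rw [f_tf, hconst]
    · exact absurd rfl hij
  have e : Setoid (Dic P) := Setoid.ker (fun x : Dic P => x.i)
  cases hg : S.g 0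
  · have := S.univ_true (Setoid.ker (fun x : Dic P => x.i)) (by
      intro x y hxy
      by_contra hne
      rw [hcross x y hne, hg] at hxy
      exact Bool.noConfusion hxy) ⟨0, false⟩ ⟨0, true⟩
    exact Bool.noConfusion this
  · have := S.univ_false (Setoid.ker (fun x : Dic P => x.i)) (by
      intro x y _ hxy
      by_contra hne
      rw [hcross x y hne, hg] at hxy
      exact Bool.noConfusion hxy) ⟨0, false⟩ ⟨0, true⟩
    exact Bool.noConfusion this

theorem L_finite : (S.L : Set (AA P)).Finite := by
  by_contra hinf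
  have := top_of_infinite S.cA_mem_L hinf
  apply S.g_not_const
  intro x
  have hx : x ∈ S.L := by rw [this]; trivial
  have := hx 0
  rwa [zero_add] at this

/-- If the only periods are the trivial ones there is a half structure. -/
def str (hL : ∀ u ∈ S.L, u = 0 ∨ u = cA) : Str S.f where
  c x := ⟨x.a + cA, x.i⟩
  h x := x.i
  cc x := by
    refine Dic.ext' ?_ rfl
    exact add_cA_add _
  fpf x e := by
    have := congrArg Dic.a e
    exact cA_ne (left_eq_add.1 this.symm)
  hc x := rfl
  aut x y := by
    have := S.inv Dic.c x y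
    obtain ⟨a, i⟩ := x
    obtain ⟨b, j⟩ := y
    rw [Dic.c, Dic.mul_f, Dic.mul_f, add_comm cA a, add_comm cA b] at this
    exact this
  flat x y e := by
    obtain ⟨a, i⟩ := x
    obtain ⟨b, j⟩ := y
    cases i <;> cases j
    · exact absurd rfl e
    · change S.f ⟨a + cA, false⟩ ⟨b, true⟩ = _
      rw [f_ft, f_ft, ← sub_sub, sub_cA, g_add_cA]
    · change S.f ⟨a + cA, true⟩ ⟨b, false⟩ = _
      rw [f_tf, f_tf, add_sub_right_comm, g_add_cA]
    · exact absurd rfl e
  sep x y hxy h1 h2 := by
    obtain ⟨a, i⟩ := x
    obtain ⟨b, j⟩ := y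
    change i = j at hxy
    subst hxy
    by_contra hcon
    push Not at hcon
    have key : a - b ∈ S.L := by
      cases i
      · intro z
        have := hcon ⟨z + a, true⟩ (by simp)
        rw [f_ft, f_ft, add_sub_cancel_right, add_sub_assoc] at this
        exact this.symm
      · intro z
        have := hcon ⟨b - z, false⟩ (by simp)
        rw [f_tf, f_tf, sub_sub_cancel, show a - (b - z) = z + (a - b) by abel] at this
        exact this
    rcases hL _ key with h | h
    · apply h1
      rw [sub_eq_zero] at h
      rw [h]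
    · apply h2
      refine Dic.ext' ?_ rfl
      change b = a + cA
      rw [← sub_cA, ← h, sub_sub_cancel]
  conn b U hb hc hne hU y hy := by
    set W : Set (AA P) := {a | (⟨a, b⟩ : Dic P) ∈ U} with hW
    have hWne : W.Nonempty := by
      obtain ⟨⟨a, i⟩, hx⟩ := hne
      have := hb _ hx
      change i = b at this
      subst this
      exact ⟨a, hx⟩
    have hWD : ∀ x ∈ W, ∀ d ∈ S.D, x + d ∈ W := by
      intro x hx d hd
      by_contra hnot
      have := hU ⟨x, b⟩ hx ⟨x + d, b⟩ hnot rfl
      apply hd
      cases b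
      · change S.f ⟨x + cA, false⟩ ⟨x + d, false⟩ = _ at this
        rw [f_ff, f_ff, add_sub_cancel_left, show x + d - (x + cA) = d - cA by abel, sub_cA] at this
        exact this.symm
      · change S.f ⟨x + cA, true⟩ ⟨x + d, true⟩ = _ at this
        rw [f_tt, f_tt, add_sub_cancel_left, show x + d - (x + cA) = d - cA by abel, sub_cA] at this
        exact this.symm
    obtain ⟨a, i⟩ := y
    change i = b at hy
    subst hy
    exact S.D_univ hWne hWD a

end Sit

end Pool.Agent.BG
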