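import Pool.Agent.Lib.MP_291637_al.Final
import Pool.Agent.Lib.MP_291637_al_h9.Two
import Pool.Agent.Lib.MP_291637_al_h9.LTriv
import Pool.Agent.Lib.MP_291637_al_h42.Rainbow

/-!
# The endgame from the weak triple theorem

The statement `VF` says: if `P`, `Q`, `R` are pairwise not rainbow, and both `Q` and `R` cross `P` at
`x`, then `R` crosses `P` at the point `Q P Q x`.
-/

set_option autoImplicit false

namespace Pool.Agent.BG

/-- The weak triple theorem. -/
def VF {V : Type*} (f : V → V → Bool) : Prop := ∀ P Q R : Str f, NR P Q → NR P R → NR Q R →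
  (∃ x, (P.h (Q.c x) = P.h x ↔ P.h (R.c x) = P.h x)) →
  ∀ x, P.h (Q.c x) ≠ P.h x → P.h (R.c x) ≠ P.h x →
    P.h (R.c (Q.c (P.c (Q.c x)))) ≠ P.h x

section General

variable {V : Type*} {f : V → V → Bool}

/-- The pair theorem. -/
theorem tt (hf : ∀ x y, f x y = f y x) : TT f where
  rb P Q := by
    rcases Str.rainbow_or hf P Q with h | h
    · exact Or.inl fun x => ⟨(h x).2, (h x).1⟩
    · right
      intro x
      by_contra hcon
      push Not at hcon
      exact h x ⟨hcon.2, hcon.1⟩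
  tc P Q _ x := Str.cross_c hf P Q x

/-- The cut is invariant under `Q P Q`. -/
theorem h_qpq (hf : ∀ x y, f x y = f y x) (P Q : Str f) (x : V) :
    P.h (Q.c (P.c (Q.c x))) = P.h x := by
  have h := Str.cross_c hf P Q (Q.c x)
  rw [Q.cc, P.hc] at h
  revert h
  cases P.h (Q.c (P.c (Q.c x))) <;> cases P.h (Q.c x) <;> cases P.h x <;> simp

/-- There are no crossing 4-cycles. -/
theorem no_fix {P Q : Str f} (hNR : NR P Q) {x : V} (hx : P.h (Q.c x) ≠ P.h x) :
    Q.c (P.c (Q.c x)) ≠ P.c x := by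
  intro e
  have hq : Q.h (P.c x) = Q.h x := (hNR x).resolve_left hx
  obtain ⟨z, hz, hz'⟩ := Q.sep x (P.c x) hq.symm (P.fpf x) (by
    intro e2
    apply hx
    rw [← e2, P.hc])
  apply hz'
  have h1 : P.h z = P.h x := by
    by_contra hne
    exact hz' (P.flat x z (Ne.symm hne)).symm
  calc f x z = f (Q.c x) z := (Q.flat x z (Ne.symm hz)).symm
    _ = f (P.c (Q.c x)) z := (P.flat (Q.c x) z (by rw [h1]; exact hx)).symm
    _ = f (Q.c (P.c (Q.c x))) z := (Q.flat (P.c (Q.c x)) z (by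
        intro e3
        apply hz
        rw [← e3]
        have h2 : Q.h (P.c (Q.c x)) = Q.h (Q.c (P.c (Q.c x))) := (Q.hc _).symm
        rw [h2, e, hq])).symm
    _ = f (P.c x) z := by rw [e]

/-- The weak triple theorem, including rainbow pairs, in the form of an invariance. -/
theorem VF.inv (hVF : VF f) (hf : ∀ x y, f x y = f y x) {P Q R : Str f} (hPQ : NR P Q)
    (hPR : NR P R) (hH : ∃ x, (P.h (Q.c x) = P.h x ↔ P.h (R.c x) = P.h x)) {x : V}
    (hx : P.h (Q.c x) ≠ P.h x) (hR : P.h (R.c x) ≠ P.h x) :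
    P.h (R.c (Q.c (P.c (Q.c x)))) ≠ P.h x := by
  rcases (tt hf).rb Q R with h | h
  · have h1 : ∀ z, (P.h (R.c (Q.c z)) = P.h (Q.c z) ↔ P.h (R.c z) = P.h z) :=
      even_block (tt hf) hf h.symm hPR hPQ
    have h2 : ∀ z, (P.h (R.c (P.c z)) = P.h (P.c z) ↔ P.h (R.c z) = P.h z) :=
      Str.cross_c hf P R
    intro e
    apply hR
    rw [← h1 x, ← h2 (Q.c x), ← h1 (P.c (Q.c x)), e, h_qpq hf]
  · exact hVF P Q R hPQ hPR h hH x hx hR

end General

variable {P : Type} [AddCommGroup P]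

open Dic

/-- A fixed point in an orbit of odd length. -/
theorem Good.exists_fix {B : Subgroup (Equiv.Perm (Dic P))} (hB : Good B)
    (hfin : Finite hB.O) (hodd : Odd (Nat.card hB.O)) {w : Equiv.Perm (Dic P)} (hw : w ∈ B)
    (hww : ∀ x, w (w x) = x) (x : Dic P) (hx : x.i = false) :
    ∃ g ∈ B, pr (w (g x)) = pr (g x) := by
  have hmem : ∀ d : hB.O, pr (w ⟨(pr x + d, 0), false⟩) - pr x ∈ hB.O := by
    intro d
    have h1 := hB.sub_mem_O hw (x := ⟨(pr x + d, 0), false⟩) rfl
    have h2 := hB.O.add_mem h1 d.2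
    have h3 : pr (⟨(pr x + d, 0), false⟩ : Dic P) = pr x + d := rfl
    rw [h3] at h2
    have h4 : pr (w ⟨(pr x + d, 0), false⟩) - (pr x + ↑d) + ↑d =
      pr (w ⟨(pr x + d, 0), false⟩) - pr x := by abel
    rwa [h4] at h2
  let σ : hB.O → hB.O := fun d => ⟨pr (w ⟨(pr x + d, 0), false⟩) - pr x, hmem d⟩
  have hσ : Function.Involutive σ := by
    intro d
    apply Subtype.ext
    change pr (w ⟨(pr x + (pr (w ⟨(pr x + d, 0), false⟩) - pr x), 0), false⟩) - pr x = d
    rw [add_sub_cancel]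
    have h1 : pr (w ⟨(pr (w ⟨(pr x + d, 0), false⟩), 0), false⟩) =
        pr (w (w ⟨(pr x + d, 0), false⟩)) := by
      apply hB.pr_eq hw
      · rfl
      · rw [hB.pi w hw]
    rw [h1, hww]
    change pr x + ↑d - pr x = d
    rw [add_sub_cancel_left]
  have hfix2 : ∃ d, hσ.toPerm σ d = d := by
    have : Fintype hB.O := Fintype.ofFinite _
    have h2 : Fact (Nat.Prime 2) := ⟨Nat.prime_two⟩
    refine Equiv.Perm.exists_fixed_point_of_prime (p := 2) (n := 1) ?_ ?_
    · rw [← Nat.card_eq_fintype_card]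
      exact hodd.not_two_dvd_nat
    · rw [pow_one, sq]
      ext d
      simp only [Equiv.Perm.mul_apply, Function.Involutive.coe_toPerm, Equiv.Perm.coe_one, id_eq]
      rw [hσ]
  obtain ⟨d, hd⟩ := hfix2
  have hd' : pr (w ⟨(pr x + d, 0), false⟩) - pr x = d := congrArg Subtype.val hd
  obtain ⟨g, hg, hgx⟩ := hB.exists_of_mem_O d.2 hx
  refine ⟨g, hg, ?_⟩
  have h1 : pr (w (g x)) = pr (w ⟨(pr x + d, 0), false⟩) := by
    apply hB.pr_eq hw hgx
    rw [hB.pi g hg, hx]
  rw [sub_eq_iff_eq_add] at hd'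
  rw [h1, hd', hgx, add_comm]

namespace Sit

variable (S : Sit P) [Pruf P]

/-- The basic half structure. -/
noncomputable def P0 : Str S.f := S.str S.L_trivial

theorem P0_h (x : Dic P) : S.P0.h x = x.i := rfl

theorem P0_c (x : Dic P) : S.P0.c x = cp x := by
  rw [cp_apply]
  change (⟨x.a + cA, x.i⟩ : Dic P) = _
  rw [add_comm]

instance : Infinite (Dic P) := by
  have : Infinite (AA P) := infinite_AA
  exact Infinite.of_injective (fun a : AA P => (⟨a, false⟩ : Dic P)) (fun a b h => congrArg Dic.a h)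

/-- The conjugate of a structure by a translation. -/
def cj (Q : Str S.f) (a : P) : Str S.f := Q.conj (tr a) (S.tr_mem a)

omit [Pruf P] in
theorem cj_c (Q : Str S.f) (a : P) (x : Dic P) : (S.cj Q a).c x = tr a (Q.c (tr (-a) x)) := by
  change tr a (Q.c ((tr a)⁻¹ x)) = _
  rw [tr_inv]

theorem P0_tr (a : P) (x : Dic P) : tr a (S.P0.c x) = S.P0.c (tr a x) := by
  rw [P0_c, P0_c, cp_apply, cp_apply, tr_apply, tr_apply]
  refine ext' ?_ rfl
  change ((a, 0) : AA P) + (cA + x.a) = cA + ((a, 0) + x.a)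
  rw [add_left_comm]

theorem cj_NR {Q : Str S.f} (hQ : NR S.P0 Q) (a : P) : NR S.P0 (S.cj Q a) := by
  have h := hQ.conj (S.tr_mem a)
  intro x
  have h1 := h x
  have hh : ∀ z, (S.P0.conj (tr a) (S.tr_mem a)).h z = S.P0.h z := by
    intro z
    change ((tr a)⁻¹ z).i = z.i
    rw [tr_inv, i_tr]
  have hc : ∀ z, (S.P0.conj (tr a) (S.tr_mem a)).c z = S.P0.c z := by
    intro z
    change tr a (S.P0.c ((tr a)⁻¹ z)) = S.P0.c z
    rw [P0_tr, app_inv]
  rw [hh, hh, hc] at h1
  exact h1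

theorem cj_cross (Q : Str S.f) (a : P) (x : Dic P) :
    (S.P0.h ((S.cj Q a).c x) = S.P0.h x ↔
      S.P0.h (Q.c (tr (-a) x)) = S.P0.h (tr (-a) x)) := by
  rw [cj_c, P0_h, P0_h, P0_h, P0_h, i_tr, i_tr]

/-- The conjugates of `Q` by two translations do not cross the basic structure everywhere
alternatively, as the translations have odd order. -/
theorem cj_H (Q : Str S.f) (a b : P) :
    ∃ x, (S.P0.h ((S.cj Q a).c x) = S.P0.h x ↔ S.P0.h ((S.cj Q b).c x) = S.P0.h x) := by
  by_contra hcon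
  have halt : ∀ y, (S.P0.h (Q.c (tr (a - b) y)) = S.P0.h (tr (a - b) y) ↔
      ¬ S.P0.h (Q.c y) = S.P0.h y) := by
    intro y
    have h1 : ¬ (S.P0.h ((S.cj Q a).c (tr a y)) = S.P0.h (tr a y) ↔
        S.P0.h ((S.cj Q b).c (tr a y)) = S.P0.h (tr a y)) := fun h => hcon ⟨_, h⟩
    rw [cj_cross, cj_cross, tr_tr, tr_tr, neg_add_cancel, tr_zero, neg_add_eq_sub] at h1
    tauto
  have hn : ∀ (n : ℕ) y, (S.P0.h (Q.c (tr (n • (a - b)) y)) = S.P0.h (tr (n • (a - b)) y) ↔
      (Even n ↔ S.P0.h (Q.c y) = S.P0.h y)) := by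
    intro n
    induction n with
    | zero => intro y; rw [zero_nsmul, tr_zero]; simp
    | succ n ih =>
      intro y
      rw [succ_nsmul, add_comm, ← tr_tr, halt, ih, Nat.even_add_one]
      tauto
  obtain ⟨n, hodd, hn0⟩ := Pruf.tors (a - b)
  have h1 := hn n 1
  rw [hn0, tr_zero] at h1
  rw [← Nat.not_even_iff_odd] at hodd
  tauto

/-- The half of the conjugate of the basic structure by the involution of `Q`. -/
noncomputable def sg (Q : Str S.f) (b : Bool) : Equiv.Perm (Dic P) :=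
  (S.P0.conj Q.perm Q.perm_mem).half b

theorem sg_mem (Q : Str S.f) (b : Bool) : S.sg Q b ∈ Aut S.f := Str.half_mem _ S.symm b

theorem sg_apply (Q : Str S.f) (b : Bool) (x : Dic P) :
    S.sg Q b x = if S.P0.h (Q.c x) = b then Q.c (S.P0.c (Q.c x)) else x := rfl

theorem sg_i (Q : Str S.f) (b : Bool) (x : Dic P) : (S.sg Q b x).i = x.i := by
  rw [sg_apply]
  split_ifs with h
  · exact h_qpq S.symm S.P0 Q x
  · rfl

theorem sg_sg (Q : Str S.f) (b : Bool) (x : Dic P) : S.sg Q b (S.sg Q b x) = x :=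
  Str.half_half _ b x

theorem sg_tr (Q : Str S.f) (b : Bool) (a : P) :
    tr a * S.sg Q b * (tr a)⁻¹ = S.sg (S.cj Q a) b := by
  ext1 x
  rw [Equiv.Perm.mul_apply, Equiv.Perm.mul_apply, sg_apply, sg_apply, cj_c, tr_inv]
  have h1 : S.P0.h (tr a (Q.c (tr (-a) x))) = S.P0.h (Q.c (tr (-a) x)) := by
    rw [P0_h, P0_h, i_tr]
  rw [h1]
  split_ifs
  · rw [cj_c, P0_tr, tr_tr, neg_add_cancel, tr_zero]
  · rw [tr_tr, add_neg_cancel, tr_zero]

variable (Q : Str S.f)

/-- The generators of the group. -/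
def gens : Set (Equiv.Perm (Dic P)) := {s | ∃ a : P, s = S.sg (S.cj Q a) true}

/-- The group. -/
def BB : Subgroup (Equiv.Perm (Dic P)) := Subgroup.closure (S.gens Q)

omit [Pruf P] in
theorem cj_cj (a b : P) : S.cj (S.cj Q a) b = S.cj Q (b + a) := by
  have : tr (b + a) = tr b * tr a := by ext1 x; exact (tr_tr b a x).symm
  simp only [cj, Str.conj, this, mul_inv_rev, Equiv.Perm.mul_apply]

theorem BB_mem {g : Equiv.Perm (Dic P)} (hg : g ∈ S.BB Q) : g ∈ Aut S.f := by
  refine (Subgroup.closure_le (K := Aut S.f)).2 ?_ hg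
  rintro g ⟨a, rfl⟩
  exact S.sg_mem _ _

theorem BB_i {g : Equiv.Perm (Dic P)} (hg : g ∈ S.BB Q) : ∀ x, (g x).i = x.i := by
  induction hg using Subgroup.closure_induction with
  | mem g hg => obtain ⟨a, rfl⟩ := hg; exact S.sg_i _ _
  | one => intro x; rfl
  | mul g h _ _ ih1 ih2 => intro x; rw [Equiv.Perm.mul_apply, ih1, ih2]
  | inv g _ ih => intro x; have := ih (g⁻¹ x); rw [app_inv] at this; exact this.symm

theorem BB_good : Good (S.BB Q) where
  pi g hg := S.BB_i Q hg
  pc g hg x := by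
    rw [← P0_c, ← P0_c]
    exact S.P0.commute_c_of_cut S.symm (S.BB_mem Q hg) (S.BB_i Q hg) x
  tr g hg a := by
    induction hg using Subgroup.closure_induction with
    | mem g hg =>
      obtain ⟨b, rfl⟩ := hg
      apply Subgroup.subset_closure
      exact ⟨a + b, by rw [sg_tr, cj_cj]⟩
    | one => rw [mul_one, mul_inv_cancel]; exact Subgroup.one_mem _
    | mul g h _ _ ih1 ih2 =>
      have : tr a * (g * h) * (tr a)⁻¹ = (tr a * g * (tr a)⁻¹) * (tr a * h * (tr a)⁻¹) := by group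
      rw [this]; exact mul_mem ih1 ih2
    | inv g _ ih =>
      have : tr a * g⁻¹ * (tr a)⁻¹ = (tr a * g * (tr a)⁻¹)⁻¹ := by group
      rw [this]; exact inv_mem ih

/-- The group preserves the set of crossing points. -/
theorem BB_cross (hVF : VF S.f) (hQ : NR S.P0 Q) {g : Equiv.Perm (Dic P)} (hg : g ∈ S.BB Q) :
    ∀ x : Dic P, x.i = false →
      (S.P0.h (Q.c (g x)) = S.P0.h (g x) ↔ S.P0.h (Q.c x) = S.P0.h x) := by
  have key : ∀ (a : P) (x : Dic P), x.i = false → S.P0.h (Q.c x) ≠ S.P0.h x →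
      S.P0.h (Q.c (S.sg (S.cj Q a) true x)) ≠ S.P0.h (S.sg (S.cj Q a) true x) := by
    intro a x hx h
    rw [P0_h S (S.sg (S.cj Q a) true x), sg_i, ← P0_h S x, sg_apply]
    split_ifs with h1
    · have h2 : S.P0.h ((S.cj Q a).c x) ≠ S.P0.h x := by
        rw [h1, P0_h, hx]; decide
      have hH : ∃ x, (S.P0.h ((S.cj Q a).c x) = S.P0.h x ↔ S.P0.h (Q.c x) = S.P0.h x) := by
        obtain ⟨y, hy⟩ := S.cj_H Q a 0
        refine ⟨y, hy.trans ?_⟩
        rw [cj_cross, neg_zero, tr_zero]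
      exact hVF.inv S.symm (S.cj_NR hQ a) hQ hH h2 h
    · exact h
  induction hg using Subgroup.closure_induction with
  | mem g hg =>
    obtain ⟨a, rfl⟩ := hg
    intro x hx
    constructor
    · intro h
      by_contra hne
      exact key a x hx hne h
    · intro h
      by_contra hne
      have := key a (S.sg (S.cj Q a) true x) (by rw [sg_i, hx]) hne
      rw [sg_sg] at this
      exact this h
  | one => intro x _; rfl
  | mul g h _ hh ih1 ih2 =>
    intro x hx
    rw [Equiv.Perm.mul_apply, ih1 _ (by rw [S.BB_i Q hh, hx]), ih2 x hx]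
  | inv g hg ih =>
    intro x hx
    have := ih (g⁻¹ x) (by rw [S.BB_i Q (inv_mem hg), hx])
    rw [app_inv] at this
    exact this.symm

/-- No structure which is not rainbow to the basic one crosses it. -/
theorem no_cross (hVF : VF S.f) (hQ : NR S.P0 Q) (x : Dic P) : S.P0.h (Q.c x) = S.P0.h x := by
  have key : ∀ x : Dic P, x.i = false → S.P0.h (Q.c x) = S.P0.h x := by
    intro x hx
    by_contra hne
    have hnofix : ∀ y : Dic P, y.i = false → S.P0.h (Q.c y) ≠ S.P0.h y →
        pr (S.sg Q true y) ≠ pr y := by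
      intro y hy hy' hpr
      have h1 : S.P0.h (Q.c y) = true := by
        rw [P0_h S y, hy] at hy'
        simpa using hy'
      rcases eq_or_of_pr hpr.symm (S.sg_i Q true y).symm with h | h
      · rw [sg_apply, if_pos h1] at h
        have h2 : S.P0.c (Q.c y) = Q.c y := by
          have := congrArg Q.c h
          rwa [Q.cc] at this
        exact S.P0.fpf _ h2
      · rw [sg_apply, if_pos h1, ← P0_c] at h
        exact no_fix hQ hy' h
    have hmem : S.sg Q true ∈ S.BB Q := by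
      apply Subgroup.subset_closure
      refine ⟨0, ?_⟩
      rw [← sg_tr]
      have : tr (0 : P) = 1 := by ext1 x; exact tr_zero x
      rw [this]; group
    rcases Pruf.sub (S.BB_good Q).O with h | ⟨hfin, hodd⟩
    · have hall : ∀ y : Dic P, y.i = false → S.P0.h (Q.c y) ≠ S.P0.h y := by
        intro y hy
        obtain ⟨g, hg, hgx⟩ := (S.BB_good Q).exists_of_mem_O (d := pr y - pr x)
          (by rw [h]; trivial) hx
        rw [add_sub_cancel] at hgx
        have h1 : S.P0.h (Q.c (g x)) ≠ S.P0.h (g x) := by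
          intro e
          exact hne ((S.BB_cross Q hVF hQ hg x hx).1 e)
        rcases eq_or_of_pr hgx (show (g x).i = y.i by rw [S.BB_i Q hg, hx, hy]) with h2 | h2
        · rw [h2]; exact h1
        · rw [h2, ← P0_c]
          intro e
          exact h1 ((Str.cross_c S.symm S.P0 Q (g x)).1 e)
      have h1 : (S.P0.conj Q.perm Q.perm_mem).half false = S.P0.half true := by
        apply Str.half_eq_of_fix S.symm
        intro y hy
        apply Str.half_of_ne
        change S.P0.h (Q.c y) ≠ false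
        have hy' : y.i = false := by rw [P0_h] at hy; simpa using hy
        have := hall y hy'
        rwa [P0_h S y, hy'] at this
      have h2 := Str.c_eq_of_half_eq S.symm _ _ h1 x
      exact no_fix hQ hne h2
    · obtain ⟨g, hg, hgx⟩ := (S.BB_good Q).exists_fix hfin hodd hmem (S.sg_sg Q true) x hx
      refine hnofix (g x) (by rw [S.BB_i Q hg, hx]) ?_ hgx
      intro e
      exact hne ((S.BB_cross Q hVF hQ hg x hx).1 e)
  by_cases hx : x.i = false
  · exact key x hx
  · by_contra hne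
    have h1 : (Q.c x).i = false := by
      rw [P0_h, P0_h] at hne
      revert hx hne
      cases (Q.c x).i <;> cases x.i <;> simp
    have := key (Q.c x) h1
    rw [Q.cc] at this
    exact hne this.symm

/-- Conjugates of the involution commute with the involution. -/
theorem conj_comm (hVF : VF S.f) {g : Equiv.Perm (Dic P)} (hg : g ∈ Aut S.f) :
    (g * cp * g⁻¹) * cp = cp * (g * cp * g⁻¹) := by
  set Q := S.P0.conj g hg with hQ
  have hQp : Q.perm = g * cp * g⁻¹ := by
    ext1 x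
    change g (S.P0.c (g⁻¹ x)) = g (cp (g⁻¹ x))
    rw [P0_c]
  rw [← hQp]
  ext1 x
  rw [Equiv.Perm.mul_apply, Equiv.Perm.mul_apply, ← P0_c, ← P0_c, Str.perm_apply, Str.perm_apply]
  rcases (tt S.symm).rb S.P0 Q with h | h
  · exact (h.comm x).symm
  · exact S.P0.commute_c_of_cut S.symm Q.perm_mem (S.no_cross Q hVF h) x

theorem conj_comm' (hVF : VF S.f) {g k : Equiv.Perm (Dic P)} (hg : g ∈ Aut S.f)
    (hk : k ∈ Aut S.f) :
    (g * cp * g⁻¹) * (k * cp * k⁻¹) = (k * cp * k⁻¹) * (g * cp * g⁻¹) := by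
  have h := S.conj_comm hVF (g := k⁻¹ * g) (mul_mem (inv_mem hk) hg)
  have h2 := congrArg (fun t => k * t * k⁻¹) h
  calc (g * cp * g⁻¹) * (k * cp * k⁻¹)
      = k * ((k⁻¹ * g) * cp * (k⁻¹ * g)⁻¹ * cp) * k⁻¹ := by group
    _ = k * (cp * ((k⁻¹ * g) * cp * (k⁻¹ * g)⁻¹)) * k⁻¹ := h2
    _ = (k * cp * k⁻¹) * (g * cp * g⁻¹) := by group

theorem false_of_vf (hVF : VF S.f) : False :=
  S.final (fun _ hg _ hk => S.conj_comm' hVF hg hk)

end Sit

end Pool.Agent.BG
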