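import Pool.Agent.Lib.MP_291637_al.Str

/-!
# Further lemmas on half structures
-/

set_option autoImplicit false

namespace Pool.Agent.BG

variable {V : Type*} {f : V → V → Bool}

/-- At no point both involutions cross the cut of the other structure. -/
def NR (P Q : Str f) : Prop := ∀ x, P.h (Q.c x) = P.h x ∨ Q.h (P.c x) = Q.h x

/-- At every point both involutions cross the cut of the other structure. -/
def RB (P Q : Str f) : Prop := ∀ x, P.h (Q.c x) ≠ P.h x ∧ Q.h (P.c x) ≠ Q.h x

/-- The pair theorem. -/
structure TT (f : V → V → Bool) : Prop where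
  rb : ∀ P Q : Str f, RB P Q ∨ NR P Q
  tc : ∀ P Q : Str f, NR P Q → ∀ x, (P.h (Q.c (P.c x)) = P.h (P.c x) ↔ P.h (Q.c x) = P.h x)

/-- The triple theorem. -/
def SS (f : V → V → Bool) : Prop := ∀ P Q R : Str f, NR P Q → NR P R →
  (∃ x, (P.h (Q.c x) = P.h x ↔ P.h (R.c x) = P.h x)) → ∀ b e e' x,
  P.h (R.half e' (Q.half e (P.half b (Q.half e x)))) = P.h (R.half e' x)

namespace Str

theorem half_mul_half (P : Str f) (b : Bool) : P.half b * P.half b = 1 := by
  ext x
  simp

theorem half_inv (P : Str f) (b : Bool) : (P.half b)⁻¹ = P.half b :=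
  inv_eq_of_mul_eq_one_left (P.half_mul_half b)

/-- Both halves are nonempty. -/
theorem full [Infinite V] (P : Str f) (b : Bool) : ∃ x, P.h x = b := by
  classical
  by_contra hcon
  push Not at hcon
  obtain ⟨x⟩ : Nonempty V := inferInstance
  obtain ⟨y, hy⟩ := Infinite.exists_notMem_finset {x, P.c x}
  simp only [Finset.mem_insert, Finset.mem_singleton, not_or] at hy
  have hall : ∀ z w, P.h z = P.h w := by
    intro z w
    have h1 := hcon z
    have h2 := hcon w
    revert h1 h2
    cases P.h z <;> cases P.h w <;> cases b <;> simp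
  obtain ⟨z, hz, -⟩ := P.sep x y (hall _ _) hy.1 hy.2
  exact hz (hall _ _)

theorem half_ne_one [Infinite V] (P : Str f) (b : Bool) : P.half b ≠ 1 := by
  intro h
  obtain ⟨x, hx⟩ := P.full b
  have := congrArg (fun t : Equiv.Perm V => t x) h
  simp only [Equiv.Perm.coe_one, id_eq] at this
  rw [P.half_of_eq hx] at this
  exact P.fpf x this

/-- The half is determined by its moved points. -/
theorem half_apply_ne_iff (P : Str f) (b : Bool) (x : V) : P.half b x ≠ x ↔ P.h x = b := by
  constructor
  · intro h
    by_contra hne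
    exact h (P.half_of_ne hne)
  · intro h
    rw [P.half_of_eq h]
    exact P.fpf x

theorem half_eq_of_fix [Infinite V] (hf : ∀ x y, f x y = f y x) (P D : Str f) {a b : Bool}
    (hfix : ∀ x, P.h x ≠ a → D.half b x = x) : D.half b = P.half a := by
  rcases P.fix_half (D.half_mem hf b) hfix with h | h
  · exact absurd h (D.half_ne_one b)
  · exact h

theorem half_eq_not [Infinite V] (hf : ∀ x y, f x y = f y x) (P D : Str f) {a b : Bool}
    (h : D.half b = P.half a) : D.half (!b) = P.half (!a) := by
  apply half_eq_of_fix hf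
  intro x hx
  apply D.half_of_ne
  have h1 : P.h x = a := by
    revert hx
    cases P.h x <;> cases a <;> simp
  rw [← P.half_apply_ne_iff, ← h, D.half_apply_ne_iff] at h1
  rw [h1]
  cases b <;> simp

theorem c_eq_of_half_eq [Infinite V] (hf : ∀ x y, f x y = f y x) (P D : Str f) {a b : Bool}
    (h : D.half b = P.half a) (x : V) : D.c x = P.c x := by
  by_cases hx : D.h x = b
  · have hx' : P.h x = a := by
      rw [← P.half_apply_ne_iff, ← h, D.half_apply_ne_iff]
      exact hx
    rw [← D.half_of_eq hx, h, P.half_of_eq hx']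
  · have hx1 : D.h x = !b := by
      revert hx
      cases D.h x <;> cases b <;> simp
    have h' := half_eq_not hf P D h
    have hx' : P.h x = !a := by
      rw [← P.half_apply_ne_iff, ← h', D.half_apply_ne_iff]
      exact hx1
    rw [← D.half_of_eq hx1, h', P.half_of_eq hx']

/-- If one half of `D` acts on a half of `P` along the orbits of the involution of `P`, then the two
involutions are the same. -/
theorem c_eq_of_trivial [Infinite V] (hf : ∀ x y, f x y = f y x) (P D : Str f) {a b : Bool}
    (h : ∀ x, P.h x = a → D.half b x = x ∨ D.half b x = P.c x) (x : V) : D.c x = P.c x := by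
  by_cases hU : ∃ x, P.h x = a ∧ D.h x = b
  · have hall := P.conn a {x | P.h x = a ∧ D.h x = b} (fun x hx => hx.1) ?_ hU ?_
    · have h1 : ∀ x, P.h x = a → D.half b x = P.c x := by
        intro x hx
        refine (h x hx).resolve_left ?_
        rw [← ne_eq, D.half_apply_ne_iff]
        exact (hall x hx).2
      have h2 : D.half b * P.half a ∈ Aut f := mul_mem (D.half_mem hf b) (P.half_mem hf a)
      have h3 : ∀ x, P.h x ≠ !a → (D.half b * P.half a) x = x := by
        intro x hx
        have hx' : P.h x = a := by
          revert hx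
          cases P.h x <;> cases a <;> simp
        rw [Equiv.Perm.mul_apply, P.half_of_eq hx', h1 _ (by rw [P.hc, hx']), P.cc]
      rcases P.fix_half h2 h3 with h4 | h4
      · refine c_eq_of_half_eq hf P D (a := a) (b := b) ?_ x
        have := mul_eq_one_iff_eq_inv.1 h4
        rw [P.half_inv] at this
        exact this
      · exfalso
        obtain ⟨z, hz⟩ := D.full (!b)
        have h5 : D.half b z = z := D.half_of_ne (by rw [hz]; cases b <;> simp)
        have h6 : D.half b = P.half (!a) * P.half a := by
          rw [← h4, mul_assoc, P.half_mul_half, mul_one]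
        have h7 : D.half b z = P.c z := by
          rw [h6, Equiv.Perm.mul_apply]
          by_cases hz' : P.h z = a
          · rw [P.half_of_eq hz', P.half_of_ne (by rw [P.hc, hz']; cases a <;> simp)]
          · rw [P.half_of_ne hz', P.half_of_eq (by
              revert hz'
              cases P.h z <;> cases a <;> simp)]
        exact P.fpf z (by rw [← h7, h5])
    · rintro x ⟨hx1, hx2⟩
      refine ⟨by rw [P.hc, hx1], ?_⟩
      have h1 : D.half b x = P.c x := by
        refine (h x hx1).resolve_left ?_
        rw [← ne_eq, D.half_apply_ne_iff]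
        exact hx2
      rw [← h1, D.h_half, hx2]
    · rintro x ⟨hx1, hx2⟩ y hy hya
      have h1 : D.half b x = P.c x := by
        refine (h x hx1).resolve_left ?_
        rw [← ne_eq, D.half_apply_ne_iff]
        exact hx2
      have h2 : D.half b y = y := by
        apply D.half_of_ne
        intro h3
        exact hy ⟨hya, h3⟩
      rw [← h1]
      conv_lhs => rw [← h2]
      exact D.half_mem hf b x y
  · push Not at hU
    refine c_eq_of_half_eq hf P D (a := !a) (b := b) ?_ x
    apply half_eq_of_fix hf
    intro x hx
    apply D.half_of_ne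
    apply hU
    revert hx
    cases P.h x <;> cases a <;> simp

theorem conj_half_apply (P : Str f) {g : Equiv.Perm V} (hg : g ∈ Aut f) (b : Bool) (x : V) :
    (P.conj g hg).half b x = g (P.half b (g⁻¹ x)) := by
  rw [half_apply, half_apply]
  change (if P.h (g⁻¹ x) = b then g (P.c (g⁻¹ x)) else x) = _
  split_ifs <;> simp

theorem conj_half (P : Str f) {g : Equiv.Perm V} (hg : g ∈ Aut f) (b : Bool) :
    (P.conj g hg).half b = g * P.half b * g⁻¹ := by
  ext x
  rw [conj_half_apply]; rfl

end Str

theorem NR.conj {P Q : Str f} (h : NR P Q) {g : Equiv.Perm V} (hg : g ∈ Aut f) :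
    NR (P.conj g hg) (Q.conj g hg) := by
  intro x
  have := h (g⁻¹ x)
  simpa [Str.conj] using this

/-- Halves of non-rainbow structures conjugate the halves into permutations which preserve the
cut. -/
theorem class_two (hT : TT f) {P Q : Str f} (hNR : NR P Q) (b e : Bool) (x : V) :
    P.h (Q.half e (P.half b (Q.half e x))) = P.h x := by
  have htc := hT.tc P Q hNR
  by_cases hx : P.h (Q.half e x) = b
  swap
  · rw [P.half_of_ne hx, Q.half_half]
  rw [P.half_of_eq hx]
  by_cases hqx : Q.h x = e
  · rw [Q.half_of_eq hqx] at hx ⊢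
    set y := Q.c x with hy
    have hxy : x = Q.c y := by rw [hy, Q.cc]
    have hqy : Q.h y = e := by rw [hy, Q.hc, hqx]
    by_cases hq : Q.h (P.c y) = e
    · rw [Q.half_of_eq hq, hxy]
      by_cases hc : P.h (Q.c y) = P.h y
      · have := (htc y).2 hc
        rw [this, hc, P.hc]
      · have h1 : ¬ P.h (Q.c (P.c y)) = P.h (P.c y) := fun h => hc ((htc y).1 h)
        rw [P.hc] at h1
        revert hc h1
        cases P.h (Q.c y) <;> cases P.h y <;> cases P.h (Q.c (P.c y)) <;> simp
    · rw [Q.half_of_ne hq, P.hc]
      have h1 : Q.h (P.c y) ≠ Q.h y := by rw [hqy]; exact hq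
      have h2 := (hNR y).resolve_right h1
      rw [hxy, h2]
  · rw [Q.half_of_ne hqx] at hx ⊢
    by_cases hq : Q.h (P.c x) = e
    · rw [Q.half_of_eq hq]
      have h1 : Q.h (P.c (P.c x)) ≠ Q.h (P.c x) := by rw [P.cc, hq]; exact hqx
      have h2 := (hNR (P.c x)).resolve_right h1
      rw [h2, P.hc]
    · rw [Q.half_of_ne hq, P.hc]

end Pool.Agent.BG
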