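import Pool.Agent.Lib.MP_291637_al.Orbits
import Pool.Agent.Lib.MP_291637_al.StrLemmas
import Pool.Agent.Lib.MP_291637_al_h9.Two
import Pool.Agent.Lib.MP_291637_al_h9.LTriv

/-!
# The endgame

From the triple theorem `SS` to the contradiction.
-/

set_option autoImplicit false

namespace Pool.Agent.BG

/-- The pair theorem. -/
theorem tt {V : Type*} {f : V → V → Bool} (hf : ∀ x y, f x y = f y x) : TT f where
  rb P Q := by
    rcases Str.rainbow_or hf P Q with h | h
    · exact Or.inl fun x => ⟨(h x).2, (h x).1⟩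
    · right
      intro x
      by_contra hcon
      push Not at hcon
      exact h x ⟨hcon.2, hcon.1⟩
  tc P Q _ x := Str.cross_c hf P Q x

variable {P : Type} [AddCommGroup P]

open Dic

namespace Sit

variable (S : Sit P)

theorem tr_mem (a : P) : tr a ∈ Aut S.f := S.left_mem _

theorem cp_mem : cp ∈ Aut S.f := S.left_mem _

variable [Pruf P]

/-- The basic half structure. -/
noncomputable def P0 : Str S.f := S.str S.L_trivial

theorem P0_h (x : Dic P) : S.P0.h x = x.i := rfl

theorem P0_c (x : Dic P) : S.P0.c x = cp x := by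
  rw [cp_apply]
  change (⟨x.a + cA, x.i⟩ : Dic P) = _
  rw [add_comm]

/-- The conjugate of a structure by a translation. -/
def cj (Q : Str S.f) (a : P) : Str S.f := Q.conj (tr a) (S.tr_mem a)

omit [Pruf P] in
theorem cj_half (Q : Str S.f) (a : P) (e : Bool) :
    (S.cj Q a).half e = tr a * Q.half e * (tr a)⁻¹ := Q.conj_half _ _

theorem cj_NR {Q : Str S.f} (hQ : NR S.P0 Q) (a : P) : NR S.P0 (S.cj Q a) := by
  have h := hQ.conj (S.tr_mem a)
  intro x
  have h1 := h x
  have hh : ∀ z, (S.P0.conj (tr a) (S.tr_mem a)).h z = S.P0.h z := by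
    intro z
    change ((tr a)⁻¹ z).i = z.i
    rw [tr_inv, i_tr]
  have hc : ∀ z, (S.P0.conj (tr a) (S.tr_mem a)).c z = S.P0.c z := by
    intro z
    change tr a (S.P0.c ((tr a)⁻¹ z)) = S.P0.c z
    rw [P0_c, P0_c, tr_inv, cp_apply, cp_apply, tr_apply, tr_apply]
    refine ext' ?_ rfl
    have : ((a, 0) : AA P) + (-a, 0) = 0 := by rw [Prod.mk_add_mk, add_neg_cancel, add_zero]; rfl
    change ((a, 0) : AA P) + (cA + ((-a, 0) + z.a)) = cA + z.a
    rw [add_left_comm, ← add_assoc ((a, 0) : AA P), this, zero_add]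
  rw [hh, hh, hc] at h1
  exact h1

/-- The conjugates of `Q` by two translations do not cross the basic structure everywhere
alternatively, as the translations have odd order. -/
theorem cj_H (Q : Str S.f) (a b : P) :
    ∃ x, (S.P0.h ((S.cj Q a).c x) = S.P0.h x ↔ S.P0.h ((S.cj Q b).c x) = S.P0.h x) := by
  have key : ∀ (a : P) x, (S.P0.h ((S.cj Q a).c x) = S.P0.h x ↔
      S.P0.h (Q.c (tr (-a) x)) = S.P0.h (tr (-a) x)) := by
    intro a x
    have h1 : (S.cj Q a).c x = tr a (Q.c (tr (-a) x)) := by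
      change tr a (Q.c ((tr a)⁻¹ x)) = _
      rw [tr_inv]
    rw [h1, P0_h, P0_h, P0_h, P0_h, i_tr, i_tr]
  by_contra hcon
  have halt : ∀ y, (S.P0.h (Q.c (tr (a - b) y)) = S.P0.h (tr (a - b) y) ↔
      ¬ S.P0.h (Q.c y) = S.P0.h y) := by
    intro y
    have h1 : ¬ (S.P0.h ((S.cj Q a).c (tr a y)) = S.P0.h (tr a y) ↔
        S.P0.h ((S.cj Q b).c (tr a y)) = S.P0.h (tr a y)) := fun h => hcon ⟨_, h⟩
    rw [key, key, tr_tr, tr_tr, neg_add_cancel, tr_zero, neg_add_eq_sub] at h1
    tauto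
  have hn : ∀ (n : ℕ) y, (S.P0.h (Q.c (tr (n • (a - b)) y)) = S.P0.h (tr (n • (a - b)) y) ↔
      (Even n ↔ S.P0.h (Q.c y) = S.P0.h y)) := by
    intro n
    induction n with
    | zero => intro y; rw [zero_nsmul, tr_zero]; simp
    | succ n ih =>
      intro y
      rw [succ_nsmul, add_comm, ← tr_tr, halt, ih, Nat.even_add_one]
      tauto
  obtain ⟨n, hodd, hn0⟩ := Pruf.tors (a - b)
  have h1 := hn n 1
  rw [hn0, tr_zero] at h1
  rw [← Nat.not_even_iff_odd] at hodd
  tauto

variable (Q : Str S.f) (e : Bool)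

/-- The set of halves. -/
def VH : Set (Equiv.Perm (Dic P)) := {v | ∃ a : P, v = (S.cj Q a).half e}

omit [Pruf P] in
theorem VH_mem {v : Equiv.Perm (Dic P)} (hv : v ∈ S.VH Q e) : v ∈ Aut S.f := by
  obtain ⟨a, rfl⟩ := hv
  exact (S.cj Q a).half_mem S.symm e

omit [Pruf P] in
theorem VH_self : Q.half e ∈ S.VH Q e := by
  refine ⟨0, ?_⟩
  have : tr (0 : P) = 1 := by ext1 x; exact tr_zero x
  rw [cj_half, this]
  group

omit [Pruf P] in
theorem VH_tr {v : Equiv.Perm (Dic P)} (hv : v ∈ S.VH Q e) (a : P) :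
    tr a * v * (tr a)⁻¹ ∈ S.VH Q e := by
  obtain ⟨b, rfl⟩ := hv
  refine ⟨a + b, ?_⟩
  have : tr (a + b) = tr a * tr b := by ext1 x; exact (tr_tr a b x).symm
  rw [cj_half, cj_half, this]
  group

/-- The translations commute with the halves of the basic structure. -/
theorem tr_half (a : P) (b : Bool) (x : Dic P) :
    tr a (S.P0.half b x) = S.P0.half b (tr a x) := by
  rw [Str.half_apply, Str.half_apply, P0_h, P0_h, i_tr]
  split_ifs
  · rw [P0_c, P0_c, cp_apply, cp_apply, tr_apply, tr_apply]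
    refine ext' ?_ rfl
    change ((a, 0) : AA P) + (cA + x.a) = cA + ((a, 0) + x.a)
    rw [add_left_comm]
  · rfl

/-- The generators of the two groups. -/
def gens (b : Bool) : Set (Equiv.Perm (Dic P)) :=
  (fun v => v * S.P0.half b * v⁻¹) '' S.VH Q e

/-- The two groups. -/
def BB (b : Bool) : Subgroup (Equiv.Perm (Dic P)) := Subgroup.closure (S.gens Q e b)

theorem tr_mul (a : P) (b : Bool) : tr a * S.P0.half b = S.P0.half b * tr a := by
  ext1 x
  exact S.tr_half a b x

theorem gens_tr {b : Bool} {g : Equiv.Perm (Dic P)} (hg : g ∈ S.gens Q e b) (a : P) :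
    tr a * g * (tr a)⁻¹ ∈ S.gens Q e b := by
  obtain ⟨v, hv, rfl⟩ := hg
  refine ⟨tr a * v * (tr a)⁻¹, S.VH_tr Q e hv a, ?_⟩
  have h1 : (tr a)⁻¹ * S.P0.half b * tr a = S.P0.half b := by
    rw [mul_assoc, ← S.tr_mul, inv_mul_cancel_left]
  calc tr a * v * (tr a)⁻¹ * S.P0.half b * (tr a * v * (tr a)⁻¹)⁻¹
      = tr a * v * ((tr a)⁻¹ * S.P0.half b * tr a) * v⁻¹ * (tr a)⁻¹ := by group
    _ = tr a * (v * S.P0.half b * v⁻¹) * (tr a)⁻¹ := by rw [h1]; group

theorem gens_mem {b : Bool} {g : Equiv.Perm (Dic P)} (hg : g ∈ S.gens Q e b) : g ∈ Aut S.f := by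
  obtain ⟨v, hv, rfl⟩ := hg
  exact mul_mem (mul_mem (S.VH_mem Q e hv) (S.P0.half_mem S.symm b)) (inv_mem (S.VH_mem Q e hv))

theorem gens_i (hQ : NR S.P0 Q) {b : Bool} {g : Equiv.Perm (Dic P)} (hg : g ∈ S.gens Q e b) (x : Dic P) :
    (g x).i = x.i := by
  obtain ⟨v, ⟨a, rfl⟩, rfl⟩ := hg
  have := class_two (tt S.symm) (S.cj_NR hQ a) b e x
  change (((S.cj Q a).half e * S.P0.half b * ((S.cj Q a).half e)⁻¹) x).i = x.i
  rw [Str.half_inv]
  exact this

theorem BB_good (hQ : NR S.P0 Q) (b : Bool) : Good (S.BB Q e b) where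
  pi g hg := by
    induction hg using Subgroup.closure_induction with
    | mem g hg => exact S.gens_i Q e hQ hg
    | one => intro x; rfl
    | mul g h _ _ ih1 ih2 => intro x; rw [Equiv.Perm.mul_apply, ih1, ih2]
    | inv g _ ih => intro x; have := ih (g⁻¹ x); rw [app_inv] at this; exact this.symm
  pc g hg := by
    have h1 : g ∈ Aut S.f := by
      refine (Subgroup.closure_le (K := Aut S.f)).2 ?_ hg
      intro g hg
      exact S.gens_mem Q e hg
    have h2 : ∀ x, (g x).i = x.i := by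
      induction hg using Subgroup.closure_induction with
      | mem g hg => exact S.gens_i Q e hQ hg
      | one => intro x; rfl
      | mul g h hg hh ih1 ih2 =>
        have e1 : g ∈ Aut S.f := (Subgroup.closure_le (K := Aut S.f)).2 (fun g hg => S.gens_mem Q e hg) hg
        have e2 : h ∈ Aut S.f := (Subgroup.closure_le (K := Aut S.f)).2 (fun g hg => S.gens_mem Q e hg) hh
        intro x; rw [Equiv.Perm.mul_apply, ih1 e1, ih2 e2]
      | inv g hg ih =>
        have e1 : g ∈ Aut S.f := (Subgroup.closure_le (K := Aut S.f)).2 (fun g hg => S.gens_mem Q e hg) hg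
        intro x; have := ih e1 (g⁻¹ x); rw [app_inv] at this; exact this.symm
    intro x
    rw [← P0_c, ← P0_c]
    exact S.P0.commute_c_of_cut S.symm h1 h2 x
  tr g hg a := by
    induction hg using Subgroup.closure_induction with
    | mem g hg => exact Subgroup.subset_closure (S.gens_tr Q e hg a)
    | one => rw [mul_one, mul_inv_cancel]; exact Subgroup.one_mem _
    | mul g h _ _ ih1 ih2 =>
      have : tr a * (g * h) * (tr a)⁻¹ = (tr a * g * (tr a)⁻¹) * (tr a * h * (tr a)⁻¹) := by group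
      rw [this]; exact mul_mem ih1 ih2
    | inv g _ ih =>
      have : tr a * g⁻¹ * (tr a)⁻¹ = (tr a * g * (tr a)⁻¹)⁻¹ := by group
      rw [this]; exact inv_mem ih

/-- The two groups commute. -/
theorem BB_comm (hSS : SS S.f) (hQ : NR S.P0 Q) (b b' : Bool) :
    ∀ g ∈ S.BB Q e b, ∀ h ∈ S.BB Q e b', g * h = h * g := by
  have hgen : ∀ g ∈ S.gens Q e b, ∀ h ∈ S.gens Q e b', g * h = h * g := by
    rintro g hg h ⟨u, ⟨a', rfl⟩, rfl⟩
    have hgm := S.gens_mem Q e hg
    obtain ⟨v, ⟨a, rfl⟩, rfl⟩ := hg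
    have hcut := hSS S.P0 (S.cj Q a) (S.cj Q a') (S.cj_NR hQ a) (S.cj_NR hQ a')
      (S.cj_H Q a a') b e e
    have h1 := (S.P0.conj ((S.cj Q a').half e) ((S.cj Q a').half_mem S.symm e)).commute_of_cut
      S.symm hgm (by
      intro x
      change S.P0.h (((S.cj Q a').half e)⁻¹ _) = S.P0.h (((S.cj Q a').half e)⁻¹ x)
      rw [Str.half_inv]
      have := hcut x
      change S.P0.h (((S.cj Q a').half e)
        (((S.cj Q a).half e * S.P0.half b * ((S.cj Q a).half e)⁻¹) x)) = _
      rw [Str.half_inv]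
      exact this) b'
    rw [S.P0.conj_half] at h1
    exact h1
  intro g hg h hh
  have h1 : ∀ h ∈ S.gens Q e b', g * h = h * g := by
    induction hg using Subgroup.closure_induction with
    | mem g hg => exact hgen g hg
    | one => intro h _; rw [one_mul, mul_one]
    | mul g1 g2 _ _ ih1 ih2 =>
      intro h hh
      rw [mul_assoc, ih2 h hh, ← mul_assoc, ih1 h hh, mul_assoc]
    | inv g _ ih =>
      intro h hh
      rw [inv_mul_eq_iff_eq_mul, ← mul_assoc, ih h hh, mul_inv_cancel_right]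
  induction hh using Subgroup.closure_induction with
  | mem h hh => exact h1 h hh
  | one => rw [one_mul, mul_one]
  | mul h1 h2 _ _ ih1 ih2 => rw [← mul_assoc, ih1, mul_assoc, ih2, mul_assoc]
  | inv h _ ih => rw [eq_inv_mul_iff_mul_eq, ← mul_assoc, ← ih, mul_inv_cancel_right]

theorem fix_exists {v : Equiv.Perm (Dic P)} (hv : v ∈ Aut S.f) (b : Bool) :
    ∃ y : Dic P, y.i = false ∧ pr ((v * S.P0.half b * v⁻¹) y) = pr y := by
  have : Infinite (Dic P) := by
    have : Infinite (AA P) := infinite_AA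
    exact Infinite.of_injective (fun a : AA P => (⟨a, false⟩ : Dic P)) (fun a b h => congrArg Dic.a h)
  rw [← Str.conj_half _ hv]
  set D := S.P0.conj v hv with hD
  by_cases h : ∃ y : Dic P, y.i = false ∧ D.h y ≠ b
  · obtain ⟨y, hy1, hy2⟩ := h
    exact ⟨y, hy1, by rw [D.half_of_ne hy2]⟩
  · push Not at h
    have h1 : D.half (!b) = S.P0.half true := by
      apply Str.half_eq_of_fix S.symm
      intro x hx
      apply D.half_of_ne
      rw [h x (by rw [P0_h] at hx; simpa using hx)]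
      cases b <;> simp
    have h2 := Str.half_eq_not S.symm _ _ h1
    rw [Bool.not_not, Bool.not_true] at h2
    refine ⟨⟨0, false⟩, rfl, ?_⟩
    rw [h2, Str.half_of_eq _ (by rfl), P0_c, pr_cp]

instance : Infinite (Dic P) := by
  have : Infinite (AA P) := infinite_AA
  exact Infinite.of_injective (fun a : AA P => (⟨a, false⟩ : Dic P)) (fun a b h => congrArg Dic.a h)

/-- Halves of structures which are not rainbow to the basic one commute with the involution. -/
theorem c_comm (hSS : SS S.f) {Q : Str S.f} (hQ : NR S.P0 Q) (e : Bool) (x : Dic P) :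
    Q.half e (S.P0.c ((Q.half e)⁻¹ x)) = S.P0.c x := by
  have hv := S.VH_self Q e
  have hvm := S.VH_mem Q e hv
  set v := Q.half e with hvdef
  have key : ∀ b b' : Bool, (S.BB_good Q e hQ b).O ≤ (S.BB_good Q e hQ b').O →
      v (S.P0.c (v⁻¹ x)) = S.P0.c x := by
    intro b b' hle
    set w := v * S.P0.half b * v⁻¹ with hw
    have hwg : w ∈ S.gens Q e b := ⟨v, hv, rfl⟩
    have hwB : w ∈ S.BB Q e b := Subgroup.subset_closure hwg
    have htriv := Good.trivial_of_commuting (S.BB_good Q e hQ b) (S.BB_good Q e hQ b') (S.BB_comm Q e hSS hQ b b') hle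
      hwB (by
        intro z
        have : w * w = 1 := by
          rw [hw]
          calc v * S.P0.half b * v⁻¹ * (v * S.P0.half b * v⁻¹)
              = v * (S.P0.half b * S.P0.half b) * v⁻¹ := by group
            _ = 1 := by rw [Str.half_mul_half]; group
        exact congrArg (fun t : Equiv.Perm (Dic P) => t z) this) (S.fix_exists hvm b)
    have h1 := Str.c_eq_of_trivial S.symm S.P0 (S.P0.conj v hvm) (a := false) (b := b) (by
      intro y hy
      rw [Str.conj_half, ← hw, P0_c]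
      have h2 := htriv y hy
      exact eq_or_of_pr h2.symm (S.gens_i Q e hQ hwg y).symm) x
    exact h1
  rcases Pruf.tot (S.BB_good Q e hQ false).O (S.BB_good Q e hQ true).O with h | h
  · exact key _ _ h
  · exact key _ _ h

/-- Conjugates of the involution commute with the involution. -/
theorem conj_comm (hSS : SS S.f) {g : Equiv.Perm (Dic P)} (hg : g ∈ Aut S.f) :
    (g * cp * g⁻¹) * cp = cp * (g * cp * g⁻¹) := by
  set Q := S.P0.conj g hg with hQ
  have hcp : S.P0.perm = cp := by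
    ext1 x
    exact S.P0_c x
  have hQp : Q.perm = g * cp * g⁻¹ := by
    ext1 x
    change g (S.P0.c (g⁻¹ x)) = g (cp (g⁻¹ x))
    rw [P0_c]
  rw [← hQp, ← hcp]
  rcases (tt S.symm).rb S.P0 Q with h | h
  · have key : ∀ b, Q.perm * S.P0.half b * Q.perm⁻¹ = S.P0.half (!b) := by
      intro b
      rw [← Str.conj_half _ Q.perm_mem]
      apply Str.half_eq_of_fix S.symm
      intro x hx
      apply Str.half_of_ne
      change S.P0.h (Q.perm⁻¹ x) ≠ b
      have h1 : Q.perm⁻¹ x = Q.c x := rfl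
      rw [h1]
      have h2 := (h x).1
      revert h2 hx
      cases S.P0.h (Q.c x) <;> cases S.P0.h x <;> cases b <;> simp
    have h3 : S.P0.perm = S.P0.half false * S.P0.half true := by
      ext1 x
      rw [Equiv.Perm.mul_apply, Str.perm_apply]
      cases hx : S.P0.h x
      · rw [S.P0.half_of_ne (b := true) (by rw [hx]; simp), S.P0.half_of_eq hx]
      · rw [S.P0.half_of_eq hx, S.P0.half_of_ne (by rw [S.P0.hc, hx]; simp)]
    have h4 : S.P0.perm = S.P0.half true * S.P0.half false := by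
      ext1 x
      rw [Equiv.Perm.mul_apply, Str.perm_apply]
      cases hx : S.P0.h x
      · rw [S.P0.half_of_eq hx, S.P0.half_of_ne (by rw [S.P0.hc, hx]; simp)]
      · rw [S.P0.half_of_ne (b := false) (by rw [hx]; simp), S.P0.half_of_eq hx]
    have h5 : Q.perm * S.P0.perm * Q.perm⁻¹ = S.P0.perm := by
      calc Q.perm * S.P0.perm * Q.perm⁻¹
          = (Q.perm * S.P0.half false * Q.perm⁻¹) * (Q.perm * S.P0.half true * Q.perm⁻¹) := by
            rw [h3]; group
        _ = S.P0.half true * S.P0.half false := by rw [key, key]; rfl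
        _ = S.P0.perm := h4.symm
    rw [mul_inv_eq_iff_eq_mul] at h5
    exact h5
  · have key : ∀ e x, Q.half e (S.P0.c x) = S.P0.c (Q.half e x) := by
      intro e x
      have h1 := S.c_comm hSS h e (Q.half e x)
      rwa [Q.half_inv, Q.half_half] at h1
    ext1 x
    rw [Equiv.Perm.mul_apply, Equiv.Perm.mul_apply, Str.perm_apply, Str.perm_apply,
      Str.perm_apply, Str.perm_apply]
    have h3 : ∀ z, Q.c z = Q.half false (Q.half true z) := by
      intro z
      cases hx : Q.h z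
      · rw [Q.half_of_ne (b := true) (by rw [hx]; simp), Q.half_of_eq hx]
      · rw [Q.half_of_eq hx, Q.half_of_ne (by rw [Q.hc, hx]; simp)]
    rw [h3, h3, key, key]

theorem conj_comm' (hSS : SS S.f) {g k : Equiv.Perm (Dic P)} (hg : g ∈ Aut S.f)
    (hk : k ∈ Aut S.f) :
    (g * cp * g⁻¹) * (k * cp * k⁻¹) = (k * cp * k⁻¹) * (g * cp * g⁻¹) := by
  have h := S.conj_comm hSS (g := k⁻¹ * g) (mul_mem (inv_mem hk) hg)
  have h2 := congrArg (fun t => k * t * k⁻¹) h
  calc (g * cp * g⁻¹) * (k * cp * k⁻¹)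
      = k * ((k⁻¹ * g) * cp * (k⁻¹ * g)⁻¹ * cp) * k⁻¹ := by group
    _ = k * (cp * ((k⁻¹ * g) * cp * (k⁻¹ * g)⁻¹)) * k⁻¹ := h2
    _ = (k * cp * k⁻¹) * (g * cp * g⁻¹) := by group

/-- The conjugates of the involution. -/
def CC : Set (Equiv.Perm (Dic P)) := {k | ∃ g ∈ Aut S.f, k = g * cp * g⁻¹}

/-- The normal closure of the involution. -/
def NN : Subgroup (Equiv.Perm (Dic P)) := Subgroup.closure S.CC

omit [Pruf P] in
theorem cp_mul_cp : (cp : Equiv.Perm (Dic P)) * cp = 1 := by
  ext1 x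
  rw [Equiv.Perm.mul_apply, cp_apply, cp_apply]
  refine ext' ?_ rfl
  change cA + (cA + x.a) = x.a
  rw [← add_assoc, cA_add, zero_add]

theorem NN_comm (hSS : SS S.f) : ∀ g ∈ S.NN, ∀ h ∈ S.NN, g * h = h * g := by
  have h1 : ∀ g ∈ S.CC, ∀ h ∈ S.NN, g * h = h * g := by
    intro g hg h hh
    induction hh using Subgroup.closure_induction with
    | mem h hh =>
      obtain ⟨g, hg, rfl⟩ := hg
      obtain ⟨k, hk, rfl⟩ := hh
      exact S.conj_comm' hSS hg hk
    | one => rw [one_mul, mul_one]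
    | mul h1 h2 _ _ ih1 ih2 => rw [← mul_assoc, ih1, mul_assoc, ih2, mul_assoc]
    | inv h _ ih => rw [eq_inv_mul_iff_mul_eq, ← mul_assoc, ← ih, mul_inv_cancel_right]
  intro g hg h hh
  induction hg using Subgroup.closure_induction with
  | mem g hg => exact h1 g hg h hh
  | one => rw [one_mul, mul_one]
  | mul g1 g2 _ _ ih1 ih2 => rw [mul_assoc, ih2, ← mul_assoc, ih1, mul_assoc]
  | inv g _ ih => rw [inv_mul_eq_iff_eq_mul, ← mul_assoc, ih, mul_inv_cancel_right]

theorem NN_sq (hSS : SS S.f) : ∀ g ∈ S.NN, g * g = 1 := by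
  intro g hg
  have hcomm := S.NN_comm hSS
  induction hg using Subgroup.closure_induction with
  | mem g hg =>
    obtain ⟨g, hg, rfl⟩ := hg
    calc g * cp * g⁻¹ * (g * cp * g⁻¹) = g * (cp * cp) * g⁻¹ := by group
      _ = 1 := by rw [cp_mul_cp]; group
  | one => rw [one_mul]
  | mul g1 g2 h1 h2 ih1 ih2 =>
    calc g1 * g2 * (g1 * g2) = g1 * (g2 * g1) * g2 := by group
      _ = g1 * (g1 * g2) * g2 := by rw [hcomm g2 h2 g1 h1]
      _ = (g1 * g1) * (g2 * g2) := by group
      _ = 1 := by rw [ih1, ih2, one_mul]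
  | inv g _ ih => rw [← mul_inv_rev, ih, inv_one]

omit [Pruf P] in
theorem NN_conj {g : Equiv.Perm (Dic P)} (hg : g ∈ Aut S.f) {k : Equiv.Perm (Dic P)}
    (hk : k ∈ S.NN) : g * k * g⁻¹ ∈ S.NN := by
  induction hk using Subgroup.closure_induction with
  | mem k hk =>
    obtain ⟨k, hk, rfl⟩ := hk
    apply Subgroup.subset_closure
    exact ⟨g * k, mul_mem hg hk, by group⟩
  | one => rw [mul_one, mul_inv_cancel]; exact Subgroup.one_mem _
  | mul g1 g2 _ _ ih1 ih2 =>
    have : g * (g1 * g2) * g⁻¹ = (g * g1 * g⁻¹) * (g * g2 * g⁻¹) := by group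
    rw [this]; exact mul_mem ih1 ih2
  | inv g1 _ ih =>
    have : g * g1⁻¹ * g⁻¹ = (g * g1 * g⁻¹)⁻¹ := by group
    rw [this]; exact inv_mem ih

omit [Pruf P] in
theorem NN_trans (x y : Dic P) : ∃ k ∈ S.NN, k x = y := by
  have h := S.prim
    { r := fun x y => ∃ k ∈ S.NN, k x = y
      iseqv :=
        { refl := fun x => ⟨1, Subgroup.one_mem _, rfl⟩
          symm := by
            rintro x y ⟨k, hk, rfl⟩
            exact ⟨k⁻¹, inv_mem hk, by simp⟩
          trans := by
            rintro x y z ⟨k, hk, rfl⟩ ⟨l, hl, rfl⟩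
            exact ⟨l * k, mul_mem hl hk, rfl⟩ } } (by
      rintro g hg x y ⟨k, hk, rfl⟩
      exact ⟨g * k * g⁻¹, S.NN_conj hg hk, by simp⟩)
  rcases h with h | h
  · exfalso
    have h1 : ∃ k ∈ S.NN, k (1 : Dic P) = cp 1 :=
      ⟨cp, Subgroup.subset_closure ⟨1, Subgroup.one_mem _, by group⟩, rfl⟩
    have h2 : (⊥ : Setoid (Dic P)) 1 (cp 1) := by
      rw [← h]; exact h1
    have h3 : (1 : Dic P) = cp 1 := h2
    apply Dic.c_ne_one (P := P)
    have h4 : cp (1 : Dic P) = Dic.c * 1 := rfl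
    rw [h4, mul_one] at h3
    exact h3.symm
  · have h1 : (⊤ : Setoid (Dic P)) x y := trivial
    rw [← h] at h1
    exact h1

omit [Pruf P] in
/-- There is an element of odd prime order. -/
theorem exists_prime [Pruf P] : ∃ (a : P) (q : ℕ), q.Prime ∧ q ≠ 2 ∧ a ≠ 0 ∧ q • a = 0 := by
  have : Infinite P := Pruf.inf
  obtain ⟨x, hx⟩ := exists_ne (0 : P)
  obtain ⟨n, hn, hnx⟩ := Pruf.tors x
  have hd := addOrderOf_dvd_of_nsmul_eq_zero hnx
  have h1 : addOrderOf x ≠ 1 := by rwa [ne_eq, AddMonoid.addOrderOf_eq_one_iff]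
  have hq := Nat.minFac_prime h1
  set q := (addOrderOf x).minFac with hqdef
  obtain ⟨m, hm⟩ := Nat.minFac_dvd (addOrderOf x)
  rw [← hqdef] at hm
  have hpos : 0 < addOrderOf x := Nat.pos_of_dvd_of_pos hd hn.pos
  refine ⟨m • x, q, hq, ?_, ?_, ?_⟩
  · intro h2
    have h3 : 2 ∣ n := (h2 ▸ Dvd.intro m hm.symm : 2 ∣ addOrderOf x).trans hd
    exact hn.not_two_dvd_nat h3
  · intro h0
    have h4 := Nat.le_of_dvd (Nat.pos_of_ne_zero (by rintro rfl; omega))
      (addOrderOf_dvd_of_nsmul_eq_zero h0)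
    have h5 := hq.two_le
    have h6 : 0 < m := Nat.pos_of_ne_zero (by rintro rfl; omega)
    nlinarith
  · rw [smul_smul, ← hm, addOrderOf_nsmul_eq_zero]

theorem final (hSS : SS S.f) : False := by
  obtain ⟨a, q, hq, hq2, ha, hqa⟩ := exists_prime (P := P)
  obtain ⟨ν, hν, hν1⟩ := S.NN_trans 1 (tr a 1)
  set T : Set (Equiv.Perm (Dic P)) :=
    (fun b => tr b * ν * (tr b)⁻¹) '' (AddSubgroup.zmultiples a : Set P) with hT
  have hTN : T ⊆ S.NN := by
    rintro _ ⟨b, -, rfl⟩
    exact S.NN_conj (S.tr_mem b) hν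
  have hTfin : T.Finite := by
    apply Set.Finite.image
    apply finite_zmultiples.2
    rw [isOfFinAddOrder_iff_nsmul_eq_zero]
    exact ⟨q, hq.pos, hqa⟩
  set M := Subgroup.closure T with hM
  have hMN : M ≤ S.NN := (Subgroup.closure_le _).2 hTN
  have hνM : ν ∈ M := by
    apply Subgroup.subset_closure
    refine ⟨0, AddSubgroup.zero_mem _, ?_⟩
    have : tr (0 : P) = 1 := by ext1 x; exact tr_zero x
    simp only [this]
    group
  have hMconj : ∀ m ∈ M, tr a * m * (tr a)⁻¹ ∈ M := by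
    intro m hm
    induction hm using Subgroup.closure_induction with
    | mem k hk =>
      obtain ⟨b, hb, rfl⟩ := hk
      apply Subgroup.subset_closure
      refine ⟨a + b, AddSubgroup.add_mem _ (AddSubgroup.mem_zmultiples a) hb, ?_⟩
      have : tr (a + b) = tr a * tr b := by ext1 x; exact (tr_tr a b x).symm
      simp only [this]
      group
    | one => rw [mul_one, mul_inv_cancel]; exact Subgroup.one_mem _
    | mul g1 g2 _ _ ih1 ih2 =>
      have : tr a * (g1 * g2) * (tr a)⁻¹ = (tr a * g1 * (tr a)⁻¹) * (tr a * g2 * (tr a)⁻¹) := by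
        group
      rw [this]; exact mul_mem ih1 ih2
    | inv g1 _ ih =>
      have : tr a * g1⁻¹ * (tr a)⁻¹ = (tr a * g1 * (tr a)⁻¹)⁻¹ := by group
      rw [this]; exact inv_mem ih
  have hMfin : Finite M := by
    have hc : ∀ x ∈ T, ∀ y ∈ T, x * y = y * x := fun x hx y hy =>
      S.NN_comm hSS x (hTN hx) y (hTN hy)
    have hfg : Group.FG M := by
      rw [Group.fg_iff_subgroup_fg]
      exact ⟨hTfin.toFinset, by simp [hM]⟩
    let : CommGroup M := { (inferInstance : Group M) with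
      mul_comm := fun x y => Subtype.ext (S.NN_comm hSS _ (hMN x.2) _ (hMN y.2)) }
    apply CommGroup.finite_of_fg_isMulTorsion
    intro m
    rw [isOfFinOrder_iff_pow_eq_one]
    refine ⟨2, by norm_num, ?_⟩
    rw [sq]
    exact Subtype.ext (S.NN_sq hSS _ (hMN m.2))
  have hMp : IsPGroup 2 M := by
    intro m
    refine ⟨1, ?_⟩
    rw [pow_one, sq]
    exact Subtype.ext (S.NN_sq hSS _ (hMN m.2))
  have h2 : Fact (Nat.Prime 2) := ⟨Nat.prime_two⟩
  have hOfin : Finite (MulAction.orbit M (1 : Dic P)) := by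
    exact Finite.Set.finite_range _
  obtain ⟨n, hn⟩ := hMp.card_orbit (1 : Dic P)
  have hmap : ∀ x : MulAction.orbit M (1 : Dic P), tr a x ∈ MulAction.orbit M (1 : Dic P) := by
    rintro ⟨x, ⟨m, rfl⟩⟩
    refine ⟨⟨tr a * m * (tr a)⁻¹ * ν, mul_mem (hMconj m m.2) hνM⟩, ?_⟩
    change (tr a * m * (tr a)⁻¹ * ν) 1 = tr a ((m : Equiv.Perm (Dic P)) 1)
    rw [Equiv.Perm.mul_apply, hν1]
    simp
  let σ : MulAction.orbit M (1 : Dic P) → MulAction.orbit M (1 : Dic P) :=
    fun x => ⟨tr a x, hmap x⟩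
  have hσinj : Function.Injective σ := by
    intro x y hxy
    apply Subtype.ext
    exact (tr a).injective (congrArg Subtype.val hxy)
  let τ : Equiv.Perm (MulAction.orbit M (1 : Dic P)) :=
    Equiv.ofBijective σ (Finite.injective_iff_bijective.1 hσinj)
  have hτ : ∀ (k : ℕ) (x : MulAction.orbit M (1 : Dic P)), (((τ ^ k) x : _) : Dic P) = tr (k • a) x := by
    intro k
    induction k with
    | zero => intro x; rw [pow_zero, zero_nsmul, tr_zero]; rfl
    | succ k ih =>
      intro x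
      rw [pow_succ', Equiv.Perm.mul_apply]
      change tr a _ = _
      rw [ih, tr_tr, add_comm a, ← succ_nsmul]
  have hF : Fintype (MulAction.orbit M (1 : Dic P)) := Fintype.ofFinite _
  have hqF : Fact q.Prime := ⟨hq⟩
  obtain ⟨x, hx⟩ := Equiv.Perm.exists_fixed_point_of_prime (p := q) (n := 1) (σ := τ) (by
    rw [← Nat.card_eq_fintype_card, hn]
    intro h
    have := (Nat.prime_dvd_prime_iff_eq hq Nat.prime_two).1 (hq.dvd_of_dvd_pow h)
    exact hq2 this) (by
    ext1 x
    apply Subtype.ext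
    rw [pow_one, hτ, hqa, tr_zero]; rfl)
  have h3 : tr a (x : Dic P) = x := congrArg Subtype.val hx
  have h4 := congrArg pr h3
  rw [pr_tr] at h4
  exact ha (by simpa using h4)

end Sit

end Pool.Agent.BG
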