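import Pool.Agent.Lib.MP_291637_al.Orbits
import Pool.Agent.Lib.MP_291637_al.StrLemmas

/-!
# The end of the proof

If the conjugates of the central involution commute there is a contradiction.
-/

set_option autoImplicit false

namespace Pool.Agent.BG

variable {P : Type} [AddCommGroup P]

open Dic

namespace Sit

variable (S : Sit P)

theorem tr_mem (a : P) : tr a ∈ Aut S.f := S.left_mem _

theorem cp_mem : cp ∈ Aut S.f := S.left_mem _

/-- The conjugates of the involution. -/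
def CC : Set (Equiv.Perm (Dic P)) := {k | ∃ g ∈ Aut S.f, k = g * cp * g⁻¹}

/-- The normal closure of the involution. -/
def NN : Subgroup (Equiv.Perm (Dic P)) := Subgroup.closure S.CC

theorem cp_mul_cp : (cp : Equiv.Perm (Dic P)) * cp = 1 := by
  ext1 x
  rw [Equiv.Perm.mul_apply, cp_apply, cp_apply]
  refine ext' ?_ rfl
  change cA + (cA + x.a) = x.a
  rw [← add_assoc, cA_add, zero_add]

theorem NN_comm (hC : ∀ g ∈ Aut S.f, ∀ k ∈ Aut S.f,
    (g * cp * g⁻¹) * (k * cp * k⁻¹) = (k * cp * k⁻¹) * (g * cp * g⁻¹)) : ∀ g ∈ S.NN, ∀ h ∈ S.NN, g * h = h * g := by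
  have h1 : ∀ g ∈ S.CC, ∀ h ∈ S.NN, g * h = h * g := by
    intro g hg h hh
    induction hh using Subgroup.closure_induction with
    | mem h hh =>
      obtain ⟨g, hg, rfl⟩ := hg
      obtain ⟨k, hk, rfl⟩ := hh
      exact hC _ hg _ hk
    | one => rw [one_mul, mul_one]
    | mul h1 h2 _ _ ih1 ih2 => rw [← mul_assoc, ih1, mul_assoc, ih2, mul_assoc]
    | inv h _ ih => rw [eq_inv_mul_iff_mul_eq, ← mul_assoc, ← ih, mul_inv_cancel_right]
  intro g hg h hh
  induction hg using Subgroup.closure_induction with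
  | mem g hg => exact h1 g hg h hh
  | one => rw [one_mul, mul_one]
  | mul g1 g2 _ _ ih1 ih2 => rw [mul_assoc, ih2, ← mul_assoc, ih1, mul_assoc]
  | inv g _ ih => rw [inv_mul_eq_iff_eq_mul, ← mul_assoc, ih, mul_inv_cancel_right]

theorem NN_sq (hC : ∀ g ∈ Aut S.f, ∀ k ∈ Aut S.f,
    (g * cp * g⁻¹) * (k * cp * k⁻¹) = (k * cp * k⁻¹) * (g * cp * g⁻¹)) : ∀ g ∈ S.NN, g * g = 1 := by
  intro g hg
  have hcomm := S.NN_comm hC
  induction hg using Subgroup.closure_induction with
  | mem g hg =>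
    obtain ⟨g, hg, rfl⟩ := hg
    calc g * cp * g⁻¹ * (g * cp * g⁻¹) = g * (cp * cp) * g⁻¹ := by group
      _ = 1 := by rw [cp_mul_cp]; group
  | one => rw [one_mul]
  | mul g1 g2 h1 h2 ih1 ih2 =>
    calc g1 * g2 * (g1 * g2) = g1 * (g2 * g1) * g2 := by group
      _ = g1 * (g1 * g2) * g2 := by rw [hcomm g2 h2 g1 h1]
      _ = (g1 * g1) * (g2 * g2) := by group
      _ = 1 := by rw [ih1, ih2, one_mul]
  | inv g _ ih => rw [← mul_inv_rev, ih, inv_one]

theorem NN_conj {g : Equiv.Perm (Dic P)} (hg : g ∈ Aut S.f) {k : Equiv.Perm (Dic P)}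
    (hk : k ∈ S.NN) : g * k * g⁻¹ ∈ S.NN := by
  induction hk using Subgroup.closure_induction with
  | mem k hk =>
    obtain ⟨k, hk, rfl⟩ := hk
    apply Subgroup.subset_closure
    exact ⟨g * k, mul_mem hg hk, by group⟩
  | one => rw [mul_one, mul_inv_cancel]; exact Subgroup.one_mem _
  | mul g1 g2 _ _ ih1 ih2 =>
    have : g * (g1 * g2) * g⁻¹ = (g * g1 * g⁻¹) * (g * g2 * g⁻¹) := by group
    rw [this]; exact mul_mem ih1 ih2
  | inv g1 _ ih =>
    have : g * g1⁻¹ * g⁻¹ = (g * g1 * g⁻¹)⁻¹ := by group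
    rw [this]; exact inv_mem ih

theorem NN_trans (x y : Dic P) : ∃ k ∈ S.NN, k x = y := by
  have h := S.prim
    { r := fun x y => ∃ k ∈ S.NN, k x = y
      iseqv :=
        { refl := fun x => ⟨1, Subgroup.one_mem _, rfl⟩
          symm := by
            rintro x y ⟨k, hk, rfl⟩
            exact ⟨k⁻¹, inv_mem hk, by simp⟩
          trans := by
            rintro x y z ⟨k, hk, rfl⟩ ⟨l, hl, rfl⟩
            exact ⟨l * k, mul_mem hl hk, rfl⟩ } } (by
      rintro g hg x y ⟨k, hk, rfl⟩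
      exact ⟨g * k * g⁻¹, S.NN_conj hg hk, by simp⟩)
  rcases h with h | h
  · exfalso
    have h1 : ∃ k ∈ S.NN, k (1 : Dic P) = cp 1 :=
      ⟨cp, Subgroup.subset_closure ⟨1, Subgroup.one_mem _, by group⟩, rfl⟩
    have h2 : (⊥ : Setoid (Dic P)) 1 (cp 1) := by
      rw [← h]; exact h1
    have h3 : (1 : Dic P) = cp 1 := h2
    apply Dic.c_ne_one (P := P)
    have h4 : cp (1 : Dic P) = Dic.c * 1 := rfl
    rw [h4, mul_one] at h3
    exact h3.symm
  · have h1 : (⊤ : Setoid (Dic P)) x y := trivial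
    rw [← h] at h1
    exact h1

/-- There is an element of odd prime order. -/
theorem exists_prime [Pruf P] : ∃ (a : P) (q : ℕ), q.Prime ∧ q ≠ 2 ∧ a ≠ 0 ∧ q • a = 0 := by
  have : Infinite P := Pruf.inf
  obtain ⟨x, hx⟩ := exists_ne (0 : P)
  obtain ⟨n, hn, hnx⟩ := Pruf.tors x
  have hd := addOrderOf_dvd_of_nsmul_eq_zero hnx
  have h1 : addOrderOf x ≠ 1 := by rwa [ne_eq, AddMonoid.addOrderOf_eq_one_iff]
  have hq := Nat.minFac_prime h1
  set q := (addOrderOf x).minFac with hqdef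
  obtain ⟨m, hm⟩ := Nat.minFac_dvd (addOrderOf x)
  rw [← hqdef] at hm
  have hpos : 0 < addOrderOf x := Nat.pos_of_dvd_of_pos hd hn.pos
  refine ⟨m • x, q, hq, ?_, ?_, ?_⟩
  · intro h2
    have h3 : 2 ∣ n := (h2 ▸ Dvd.intro m hm.symm : 2 ∣ addOrderOf x).trans hd
    exact hn.not_two_dvd_nat h3
  · intro h0
    have h4 := Nat.le_of_dvd (Nat.pos_of_ne_zero (by rintro rfl; omega))
      (addOrderOf_dvd_of_nsmul_eq_zero h0)
    have h5 := hq.two_le
    have h6 : 0 < m := Nat.pos_of_ne_zero (by rintro rfl; omega)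
    nlinarith
  · rw [smul_smul, ← hm, addOrderOf_nsmul_eq_zero]

theorem final [Pruf P] (hC : ∀ g ∈ Aut S.f, ∀ k ∈ Aut S.f,
    (g * cp * g⁻¹) * (k * cp * k⁻¹) = (k * cp * k⁻¹) * (g * cp * g⁻¹)) : False := by
  obtain ⟨a, q, hq, hq2, ha, hqa⟩ := exists_prime (P := P)
  obtain ⟨ν, hν, hν1⟩ := S.NN_trans 1 (tr a 1)
  set T : Set (Equiv.Perm (Dic P)) :=
    (fun b => tr b * ν * (tr b)⁻¹) '' (AddSubgroup.zmultiples a : Set P) with hT
  have hTN : T ⊆ S.NN := by
    rintro _ ⟨b, -, rfl⟩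
    exact S.NN_conj (S.tr_mem b) hν
  have hTfin : T.Finite := by
    apply Set.Finite.image
    apply finite_zmultiples.2
    rw [isOfFinAddOrder_iff_nsmul_eq_zero]
    exact ⟨q, hq.pos, hqa⟩
  set M := Subgroup.closure T with hM
  have hMN : M ≤ S.NN := (Subgroup.closure_le _).2 hTN
  have hνM : ν ∈ M := by
    apply Subgroup.subset_closure
    refine ⟨0, AddSubgroup.zero_mem _, ?_⟩
    have : tr (0 : P) = 1 := by ext1 x; exact tr_zero x
    simp only [this]
    group
  have hMconj : ∀ m ∈ M, tr a * m * (tr a)⁻¹ ∈ M := by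
    intro m hm
    induction hm using Subgroup.closure_induction with
    | mem k hk =>
      obtain ⟨b, hb, rfl⟩ := hk
      apply Subgroup.subset_closure
      refine ⟨a + b, AddSubgroup.add_mem _ (AddSubgroup.mem_zmultiples a) hb, ?_⟩
      have : tr (a + b) = tr a * tr b := by ext1 x; exact (tr_tr a b x).symm
      simp only [this]
      group
    | one => rw [mul_one, mul_inv_cancel]; exact Subgroup.one_mem _
    | mul g1 g2 _ _ ih1 ih2 =>
      have : tr a * (g1 * g2) * (tr a)⁻¹ = (tr a * g1 * (tr a)⁻¹) * (tr a * g2 * (tr a)⁻¹) := by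
        group
      rw [this]; exact mul_mem ih1 ih2
    | inv g1 _ ih =>
      have : tr a * g1⁻¹ * (tr a)⁻¹ = (tr a * g1 * (tr a)⁻¹)⁻¹ := by group
      rw [this]; exact inv_mem ih
  have hMfin : Finite M := by
    have hc : ∀ x ∈ T, ∀ y ∈ T, x * y = y * x := fun x hx y hy =>
      S.NN_comm hC x (hTN hx) y (hTN hy)
    have hfg : Group.FG M := by
      rw [Group.fg_iff_subgroup_fg]
      exact ⟨hTfin.toFinset, by simp [hM]⟩
    let : CommGroup M := { (inferInstance : Group M) with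
      mul_comm := fun x y => Subtype.ext (S.NN_comm hC _ (hMN x.2) _ (hMN y.2)) }
    apply CommGroup.finite_of_fg_isMulTorsion
    intro m
    rw [isOfFinOrder_iff_pow_eq_one]
    refine ⟨2, by norm_num, ?_⟩
    rw [sq]
    exact Subtype.ext (S.NN_sq hC _ (hMN m.2))
  have hMp : IsPGroup 2 M := by
    intro m
    refine ⟨1, ?_⟩
    rw [pow_one, sq]
    exact Subtype.ext (S.NN_sq hC _ (hMN m.2))
  have h2 : Fact (Nat.Prime 2) := ⟨Nat.prime_two⟩
  have hOfin : Finite (MulAction.orbit M (1 : Dic P)) := by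
    exact Finite.Set.finite_range _
  obtain ⟨n, hn⟩ := hMp.card_orbit (1 : Dic P)
  have hmap : ∀ x : MulAction.orbit M (1 : Dic P), tr a x ∈ MulAction.orbit M (1 : Dic P) := by
    rintro ⟨x, ⟨m, rfl⟩⟩
    refine ⟨⟨tr a * m * (tr a)⁻¹ * ν, mul_mem (hMconj m m.2) hνM⟩, ?_⟩
    change (tr a * m * (tr a)⁻¹ * ν) 1 = tr a ((m : Equiv.Perm (Dic P)) 1)
    rw [Equiv.Perm.mul_apply, hν1]
    simp
  let σ : MulAction.orbit M (1 : Dic P) → MulAction.orbit M (1 : Dic P) :=
    fun x => ⟨tr a x, hmap x⟩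
  have hσinj : Function.Injective σ := by
    intro x y hxy
    apply Subtype.ext
    exact (tr a).injective (congrArg Subtype.val hxy)
  let τ : Equiv.Perm (MulAction.orbit M (1 : Dic P)) :=
    Equiv.ofBijective σ (Finite.injective_iff_bijective.1 hσinj)
  have hτ : ∀ (k : ℕ) (x : MulAction.orbit M (1 : Dic P)), (((τ ^ k) x : _) : Dic P) = tr (k • a) x := by
    intro k
    induction k with
    | zero => intro x; rw [pow_zero, zero_nsmul, tr_zero]; rfl
    | succ k ih =>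
      intro x
      rw [pow_succ', Equiv.Perm.mul_apply]
      change tr a _ = _
      rw [ih, tr_tr, add_comm a, ← succ_nsmul]
  have hF : Fintype (MulAction.orbit M (1 : Dic P)) := Fintype.ofFinite _
  have hqF : Fact q.Prime := ⟨hq⟩
  obtain ⟨x, hx⟩ := Equiv.Perm.exists_fixed_point_of_prime (p := q) (n := 1) (σ := τ) (by
    rw [← Nat.card_eq_fintype_card, hn]
    intro h
    have := (Nat.prime_dvd_prime_iff_eq hq Nat.prime_two).1 (hq.dvd_of_dvd_pow h)
    exact hq2 this) (by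
    ext1 x
    apply Subtype.ext
    rw [pow_one, hτ, hqa, tr_zero]; rfl)
  have h3 : tr a (x : Dic P) = x := congrArg Subtype.val hx
  have h4 := congrArg pr h3
  rw [pr_tr] at h4
  exact ha (by simpa using h4)

end Sit

end Pool.Agent.BG
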