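import Pool.Agent.Lib.MP_291637_al.Basic

/-!
# From a primitive group with a regular subgroup to the situation
-/

set_option autoImplicit false

open scoped Pointwise

namespace Pool.Agent.BG

variable {P : Type} [AddCommGroup P]

/-- An equivalence relation invariant under a primitive group is trivial. -/
theorem setoid_trivial {Ω : Type*} {G : Subgroup (Equiv.Perm Ω)}
    (hG : MulAction.IsPreprimitive G Ω) (r : Setoid Ω)
    (hr : ∀ g ∈ G, ∀ x y, r x y → r (g x) (g y)) : r = ⊥ ∨ r = ⊤ := by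
  by_cases hΩ : Nonempty Ω
  swap
  · left
    ext x
    exact absurd ⟨x⟩ hΩ
  obtain ⟨o⟩ := hΩ
  have hiff : ∀ g ∈ G, ∀ x y, r (g x) (g y) ↔ r x y := by
    intro g hg x y
    refine ⟨fun h => ?_, hr g hg x y⟩
    have := hr g⁻¹ (inv_mem hg) _ _ h
    simpa using this
  have hB : MulAction.IsBlock G {x | r o x} := by
    rw [MulAction.isBlock_iff_smul_eq_of_nonempty]
    rintro ⟨g, hg⟩ ⟨z, hz1, hz2⟩
    rw [Set.mem_smul_set] at hz1
    obtain ⟨w, hw, rfl⟩ := hz1
    have hw' : r o w := hw
    have hz2' : r o (g w) := hz2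
    have h1 : r o (g o) := r.trans hz2' (r.symm (hr g hg _ _ hw'))
    ext y
    rw [Set.mem_smul_set]
    constructor
    · rintro ⟨w, hw, rfl⟩
      exact r.trans h1 (hr g hg _ _ hw)
    · intro hy
      refine ⟨g⁻¹ y, ?_, by exact app_inv g y⟩
      change r o (g⁻¹ y)
      rw [← hiff g hg, app_inv]
      exact r.trans (r.symm h1) hy
  rcases hB.subsingleton_or_eq_univ with h | h
  · left
    ext x y
    constructor
    · intro hxy
      obtain ⟨⟨g, hg⟩, hgx⟩ := hG.toIsPretransitive.exists_smul_eq o x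
      have hgx' : g o = x := hgx
      have h1 : r o (g⁻¹ y) := by
        rw [← hiff g hg, app_inv, hgx']
        exact hxy
      have h2 := h (r.refl o) h1
      change x = y
      rw [← hgx', h2, app_inv]
    · intro hxy
      change x = y at hxy
      rw [hxy]
  · right
    ext x y
    refine ⟨fun _ => trivial, fun _ => ?_⟩
    have hx : r o x := by
      have : x ∈ {x | r o x} := by rw [h]; trivial
      exact this
    have hy : r o y := by
      have : y ∈ {x | r o x} := by rw [h]; trivial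
      exact this
    exact r.trans (r.symm hx) hy

/-- A primitive group which is not doubly transitive and contains a regular dicyclic group gives
a situation. -/
theorem exists_sit {Ω : Type} {G : Subgroup (Equiv.Perm Ω)}
    (hG : MulAction.IsPreprimitive G Ω) {H : Subgroup (Equiv.Perm Ω)} (hHG : H ≤ G)
    (e : H ≃* Dic P) (hreg : ∀ ω ω' : Ω, ∃! h : H, h • ω = ω')
    (hnot : ¬ MulAction.IsMultiplyPretransitive G Ω 2) : Nonempty (Sit P) := by
  classical
  by_cases hΩ : Nonempty Ω
  swap
  · exfalso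
    apply hnot
    rw [MulAction.is_two_pretransitive_iff]
    intro a
    exact absurd ⟨a⟩ hΩ
  obtain ⟨o⟩ := hΩ
  let φ : Dic P ≃ Ω := Equiv.ofBijective (fun x => (e.symm x) • o) (by
    constructor
    · intro x y hxy
      have := (hreg o ((e.symm x) • o)).unique rfl hxy.symm
      exact e.symm.injective this
    · intro ω
      obtain ⟨h, hh, -⟩ := hreg o ω
      refine ⟨e h, ?_⟩
      change (e.symm (e h)) • o = ω
      rw [MulEquiv.symm_apply_apply]
      exact hh)
  have hφ : ∀ x, φ x = (e.symm x : Equiv.Perm Ω) o := fun x => rfl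
  have hφmul : ∀ z x, φ (z * x) = (e.symm z : Equiv.Perm Ω) (φ x) := by
    intro z x
    rw [hφ, hφ, map_mul]
    rfl
  have hinG : ∀ z, (e.symm z : Equiv.Perm Ω) ∈ G := fun z => hHG (e.symm z).2
  let rel : Dic P → Dic P → Prop := fun x y => ∃ g ∈ G, g (φ 1) = φ x ∧ g (φ Dic.c) = φ y
  let f : Dic P → Dic P → Bool := fun x y => decide (rel x y)
  have hf : ∀ x y, f x y = true ↔ rel x y := fun x y => decide_eq_true_iff
  have hgrel : ∀ (k : Equiv.Perm (Dic P)) (g : Equiv.Perm Ω), g ∈ G → (∀ x, φ (k x) = g (φ x)) →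
      ∀ x y, rel x y → rel (k x) (k y) := by
    rintro k g hg hk x y ⟨g', hg', h1, h2⟩
    exact ⟨g * g', G.mul_mem hg hg', by rw [hk, ← h1]; rfl, by rw [hk, ← h2]; rfl⟩
  have hgrel' : ∀ (k : Equiv.Perm (Dic P)) (g : Equiv.Perm Ω), g ∈ G → (∀ x, φ (k x) = g (φ x)) →
      k ∈ Aut f := by
    intro k g hg hk x y
    rw [Bool.eq_iff_iff, hf, hf]
    refine ⟨fun h => ?_, hgrel k g hg hk x y⟩
    have := hgrel k⁻¹ g⁻¹ (G.inv_mem hg) (fun x => by
      have := hk (k⁻¹ x)
      rw [app_inv] at this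
      rw [this]; simp) _ _ h
    simpa using this
  let conj : Equiv.Perm Ω → Equiv.Perm (Dic P) := fun g => φ.symm.permCongr g
  have hconj : ∀ g x, φ (conj g x) = g (φ x) := by
    intro g x
    change φ (φ.symm (g (φ x))) = g (φ x)
    rw [Equiv.apply_symm_apply]
  refine ⟨{ f := f, symm := ?_, inv := ?_, prim := ?_, irr := ?_, edge := ?_, homog := ?_,
            nonedge := ?_ }⟩
  · have key : ∀ x y, rel x y → rel y x := by
      rintro x y ⟨g, hg, h1, h2⟩
      refine ⟨g * (e.symm Dic.c : Equiv.Perm Ω), G.mul_mem hg (hinG _), ?_, ?_⟩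
      · rw [Equiv.Perm.mul_apply, ← hφmul, mul_one, h2]
      · rw [Equiv.Perm.mul_apply, ← hφmul, Dic.c_mul_c, h1]
    intro x y
    rw [Bool.eq_iff_iff, hf, hf]
    exact ⟨key x y, key y x⟩
  · intro z x y
    exact hgrel' (Equiv.mulLeft z) (e.symm z : Equiv.Perm Ω) (hinG z) (fun x => hφmul z x) x y
  · intro r hr
    have := setoid_trivial hG (r.comap φ.symm) (by
      intro g hg x y hxy
      rw [Setoid.comap_rel] at hxy ⊢
      have h1 := hr (conj g) (hgrel' _ g hg (hconj g)) _ _ hxy
      have h2 : ∀ x, conj g (φ.symm x) = φ.symm (g x) := by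
        intro x
        change φ.symm (g (φ (φ.symm x))) = _
        rw [Equiv.apply_symm_apply]
      rwa [h2, h2] at h1)
    have hrel : ∀ x y, r x y ↔ (r.comap φ.symm) (φ x) (φ y) := by
      intro x y
      change r x y ↔ r (φ.symm (φ x)) (φ.symm (φ y))
      rw [Equiv.symm_apply_apply, Equiv.symm_apply_apply]
    rcases this with h | h
    · left
      ext x y
      rw [hrel, h]
      exact φ.injective.eq_iff
    · right
      ext x y
      rw [hrel, h]
      exact ⟨fun _ => trivial, fun _ => trivial⟩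
  · intro x
    rw [← Bool.not_eq_true, hf]
    rintro ⟨g, hg, h1, h2⟩
    have := φ.injective (g.injective (h1.trans h2.symm))
    exact Dic.c_ne_one this.symm
  · rw [hf]
    exact ⟨1, G.one_mem, rfl, rfl⟩
  · intro x y hxy
    rw [hf] at hxy
    obtain ⟨g, hg, h1, h2⟩ := hxy
    refine ⟨conj g, hgrel' _ g hg (hconj g), ?_, ?_⟩
    · apply φ.injective
      rw [hconj, h1]
    · apply φ.injective
      rw [hconj, h2]
  · by_contra hcon
    push Not at hcon
    apply hnot
    rw [MulAction.is_two_pretransitive_iff]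
    intro a b c d hab hcd
    have key : ∀ a b : Ω, a ≠ b → ∃ g ∈ G, g (φ 1) = a ∧ g (φ Dic.c) = b := by
      intro a b hab
      have h1 := hcon (φ.symm a) (φ.symm b) (fun h => hab (φ.symm.injective h))
      replace h1 := (hf _ _).1 (Bool.eq_true_of_not_eq_false h1)
      obtain ⟨g, hg, h1, h2⟩ := h1
      exact ⟨g, hg, by rw [h1, Equiv.apply_symm_apply], by rw [h2, Equiv.apply_symm_apply]⟩
    obtain ⟨g, hg, rfl, rfl⟩ := key a b hab
    obtain ⟨g', hg', rfl, rfl⟩ := key c d hcd
    refine ⟨⟨g' * g⁻¹, G.mul_mem hg' (G.inv_mem hg)⟩, ?_, ?_⟩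
    · change g' (g⁻¹ (g (φ 1))) = _
      simp
    · change g' (g⁻¹ (g (φ Dic.c))) = _
      simp

end Pool.Agent.BG
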