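import Pool.Agent.Lib.MP_291637_al.EndVF
import Pool.Agent.Lib.MP_291637_al.Transport
import Pool.Agent.Lib.MP_291637_al.Prufer

set_option autoImplicit false

namespace Pool.Agent.BG

instance : Countable (Dic Q3) := by
  have : Countable Q3 := Pruf.cnt
  exact Function.Injective.countable (f := Dic.equiv) Dic.equiv.injective

/-- The answer, given the weak triple theorem. -/
theorem main_of_vf (hVF : ∀ (V : Type) (f : V → V → Bool), (∀ x y, f x y = f y x) → VF f) :
    ∃ (X : Type) (_ : Group X), Countable X ∧ Infinite X ∧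
      ∀ (Ω : Type) (G : Subgroup (Equiv.Perm Ω)),
        MulAction.IsPreprimitive G Ω →
        (∃ H : Subgroup (Equiv.Perm Ω), H ≤ G ∧ Nonempty (H ≃* X) ∧
          ∀ ω ω' : Ω, ∃! h : H, h • ω = ω') →
        MulAction.IsMultiplyPretransitive G Ω 2 := by
  refine ⟨Dic Q3, inferInstance, inferInstance, inferInstance, ?_⟩
  rintro Ω G hG ⟨H, hHG, ⟨e⟩, hreg⟩
  by_contra hnot
  obtain ⟨S⟩ := exists_sit hG hHG e hreg hnot
  exact S.false_of_vf (hVF _ S.f S.symm)

end Pool.Agent.BG
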