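import Pool.Agent.Lib.MP_291637_al.Basic

/-!
# Commuting groups normalised by the quasicyclic group

Two commuting groups of permutations of `Dic P` which preserve the coset, commute with the central
involution and are normalised by the translations by elements of `P`.
-/

set_option autoImplicit false

namespace Pool.Agent.BG

variable {P : Type} [AddCommGroup P]

namespace Dic

/-- The projection to `P`. -/
def pr (x : Dic P) : P := x.a.1

/-- The translation by an element of `P`. -/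
def tr (a : P) : Equiv.Perm (Dic P) := Equiv.mulLeft ⟨(a, 0), false⟩

/-- The involution `c` as a permutation. -/
def cp : Equiv.Perm (Dic P) := Equiv.mulLeft c

theorem tr_apply (a : P) (x : Dic P) : tr a x = ⟨(a, 0) + x.a, x.i⟩ := by
  obtain ⟨b, j⟩ := x
  change (⟨(a, 0), false⟩ : Dic P) * ⟨b, j⟩ = _
  rw [mul_f]

theorem cp_apply (x : Dic P) : cp x = ⟨cA + x.a, x.i⟩ := by
  obtain ⟨b, j⟩ := x
  change (⟨cA, false⟩ : Dic P) * ⟨b, j⟩ = _
  rw [mul_f]

theorem pr_tr (a : P) (x : Dic P) : pr (tr a x) = a + pr x := by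
  rw [tr_apply]; rfl

theorem i_tr (a : P) (x : Dic P) : (tr a x).i = x.i := by
  rw [tr_apply]

theorem pr_cp (x : Dic P) : pr (cp x) = pr x := by
  rw [cp_apply]
  change (cA + x.a).1 = x.a.1
  simp [cA]

theorem tr_tr (a b : P) (x : Dic P) : tr a (tr b x) = tr (a + b) x := by
  rw [tr_apply, tr_apply, tr_apply]
  refine ext' ?_ rfl
  have h : ((a, 0) : AA P) + (b, 0) = (a + b, 0) := by
    rw [Prod.mk_add_mk, add_zero]
  change ((a, 0) : AA P) + ((b, 0) + x.a) = (a + b, 0) + x.a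
  rw [← h, add_assoc]

theorem tr_zero (x : Dic P) : tr 0 x = x := by
  rw [tr_apply]
  refine ext' ?_ rfl
  change ((0, 0) : AA P) + x.a = x.a
  exact zero_add _

theorem tr_inv (a : P) : (tr a)⁻¹ = tr (-a) := by
  rw [inv_eq_iff_mul_eq_one]
  refine Equiv.ext fun x => ?_
  rw [Equiv.Perm.mul_apply, tr_tr, add_neg_cancel, tr_zero]; rfl

/-- Points with the same projection and coset are equal or partners. -/
theorem eq_or_of_pr {x y : Dic P} (h1 : pr x = pr y) (h2 : x.i = y.i) : y = x ∨ y = cp x := by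
  obtain ⟨⟨u, ε⟩, i⟩ := x
  obtain ⟨⟨u', ε'⟩, j⟩ := y
  change u = u' at h1
  change i = j at h2
  subst h1 h2
  have : ε' = ε ∨ ε' = 1 + ε := by revert ε ε'; decide
  rcases this with rfl | rfl
  · exact Or.inl rfl
  · right
    rw [cp_apply]
    refine ext' (Prod.ext ?_ ?_) rfl <;> simp [cA]

end Dic

open Dic

/-- The conditions on a group of permutations. -/
structure Good (B : Subgroup (Equiv.Perm (Dic P))) : Prop where
  pi : ∀ g ∈ B, ∀ x, (g x).i = x.i
  pc : ∀ g ∈ B, ∀ x, g (cp x) = cp (g x)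
  tr : ∀ g ∈ B, ∀ a, tr a * g * (tr a)⁻¹ ∈ B

namespace Good

variable {B : Subgroup (Equiv.Perm (Dic P))}

theorem pr_eq (hB : Good B) {g : Equiv.Perm (Dic P)} (hg : g ∈ B) {x y : Dic P}
    (h1 : pr x = pr y) (h2 : x.i = y.i) : pr (g x) = pr (g y) := by
  rcases eq_or_of_pr h1 h2 with rfl | rfl
  · rfl
  · rw [hB.pc g hg, pr_cp]

/-- The differences of points in one orbit. -/
def O (hB : Good B) : AddSubgroup P where
  carrier := {d | ∃ g ∈ B, pr (g ⟨0, false⟩) = d}
  zero_mem' := ⟨1, B.one_mem, rfl⟩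
  add_mem' {d e} hd he := by
    obtain ⟨g, hg, rfl⟩ := hd
    obtain ⟨g', hg', rfl⟩ := he
    set d := pr (g' ⟨0, false⟩) with hd
    refine ⟨(Dic.tr d * g * (Dic.tr d)⁻¹) * g', B.mul_mem (hB.tr g hg d) hg', ?_⟩
    rw [Equiv.Perm.mul_apply, Equiv.Perm.mul_apply, Equiv.Perm.mul_apply, pr_tr, add_comm]
    congr 1
    apply hB.pr_eq hg
    · rw [tr_inv, pr_tr, ← hd, neg_add_cancel]; rfl
    · rw [tr_inv, i_tr, hB.pi g' hg']
  neg_mem' {d} hd := by
    obtain ⟨g, hg, rfl⟩ := hd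
    set d := pr (g ⟨0, false⟩) with hd
    refine ⟨Dic.tr (-d) * g⁻¹ * (Dic.tr (-d))⁻¹, hB.tr _ (B.inv_mem hg) _, ?_⟩
    rw [Equiv.Perm.mul_apply, Equiv.Perm.mul_apply, pr_tr]
    have h1 : pr (g⁻¹ ((Dic.tr (-d))⁻¹ ⟨0, false⟩)) = pr (g⁻¹ (g ⟨0, false⟩)) := by
      apply hB.pr_eq (B.inv_mem hg)
      · rw [tr_inv, neg_neg, pr_tr, ← hd]
        change d + 0 = d
        rw [add_zero]
      · rw [tr_inv, i_tr, hB.pi g hg]
    rw [h1, show g⁻¹ (g ⟨0, false⟩) = ⟨0, false⟩ by simp]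
    change -d + 0 = -d
    rw [add_zero]

theorem sub_mem_O (hB : Good B) {g : Equiv.Perm (Dic P)} (hg : g ∈ B) {x : Dic P}
    (hx : x.i = false) : pr (g x) - pr x ∈ hB.O := by
  refine ⟨Dic.tr (-pr x) * g * (Dic.tr (-pr x))⁻¹, hB.tr g hg _, ?_⟩
  rw [Equiv.Perm.mul_apply, Equiv.Perm.mul_apply, pr_tr, sub_eq_neg_add]
  congr 1
  apply hB.pr_eq hg
  · rw [tr_inv, neg_neg, pr_tr]
    change pr x + 0 = pr x
    rw [add_zero]
  · rw [tr_inv, i_tr, hx]

theorem exists_of_mem_O (hB : Good B) {d : P} (hd : d ∈ hB.O) {x : Dic P}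
    (hx : x.i = false) : ∃ g ∈ B, pr (g x) = pr x + d := by
  obtain ⟨g, hg, rfl⟩ := hd
  refine ⟨Dic.tr (pr x) * g * (Dic.tr (pr x))⁻¹, hB.tr g hg _, ?_⟩
  rw [Equiv.Perm.mul_apply, Equiv.Perm.mul_apply, pr_tr]
  congr 1
  apply hB.pr_eq hg
  · rw [tr_inv, pr_tr, neg_add_cancel]; rfl
  · rw [tr_inv, i_tr, hx]

/-- The main lemma on commuting groups. -/
theorem trivial_of_commuting [Pruf P] {A : Subgroup (Equiv.Perm (Dic P))} (hA : Good A)
    (hB : Good B) (hcomm : ∀ g ∈ A, ∀ h ∈ B, g * h = h * g) (hle : hA.O ≤ hB.O)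
    {w : Equiv.Perm (Dic P)} (hw : w ∈ A) (hww : ∀ x, w (w x) = x)
    (hfix : ∃ y : Dic P, y.i = false ∧ pr (w y) = pr y) (x : Dic P) (hx : x.i = false) :
    pr (w x) = pr x := by
  have key : ∃ y : Dic P, y.i = false ∧ pr y - pr x ∈ hB.O ∧ pr (w y) = pr y := by
    rcases Pruf.sub hB.O with h | ⟨hfin, hodd⟩
    · obtain ⟨y, hy1, hy2⟩ := hfix
      exact ⟨y, hy1, by rw [h]; trivial, hy2⟩
    · have hmem : ∀ d : hB.O, pr (w ⟨(pr x + d, 0), false⟩) - pr x ∈ hB.O := by
        intro d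
        have h1 := hle (hA.sub_mem_O hw (x := ⟨(pr x + d, 0), false⟩) rfl)
        have h2 := hB.O.add_mem h1 d.2
        have h3 : pr (⟨(pr x + d, 0), false⟩ : Dic P) = pr x + d := rfl
        rw [h3] at h2
        have h4 : pr (w ⟨(pr x + d, 0), false⟩) - (pr x + ↑d) + ↑d =
          pr (w ⟨(pr x + d, 0), false⟩) - pr x := by abel
        rwa [h4] at h2
      let σ : hB.O → hB.O := fun d => ⟨pr (w ⟨(pr x + d, 0), false⟩) - pr x, hmem d⟩
      have hσ : Function.Involutive σ := by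
        intro d
        apply Subtype.ext
        change pr (w ⟨(pr x + (pr (w ⟨(pr x + d, 0), false⟩) - pr x), 0), false⟩) - pr x = d
        rw [add_sub_cancel]
        have h1 : pr (w ⟨(pr (w ⟨(pr x + d, 0), false⟩), 0), false⟩) =
            pr (w (w ⟨(pr x + d, 0), false⟩)) := by
          apply hA.pr_eq hw
          · rfl
          · rw [hA.pi w hw]
        rw [h1, hww]
        change pr x + ↑d - pr x = d
        rw [add_sub_cancel_left]
      have hfix2 : ∃ d, hσ.toPerm σ d = d := by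
        have : Fintype hB.O := Fintype.ofFinite _
        have h2 : Fact (Nat.Prime 2) := ⟨Nat.prime_two⟩
        refine Equiv.Perm.exists_fixed_point_of_prime (p := 2) (n := 1) ?_ ?_
        · rw [← Nat.card_eq_fintype_card]
          exact hodd.not_two_dvd_nat
        · rw [pow_one, sq]
          ext d
          simp only [Equiv.Perm.mul_apply, Function.Involutive.coe_toPerm, Equiv.Perm.coe_one, id_eq]
          rw [hσ]
      obtain ⟨d, hd⟩ := hfix2
      have hd' : pr (w ⟨(pr x + d, 0), false⟩) - pr x = d := congrArg Subtype.val hd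
      refine ⟨⟨(pr x + d, 0), false⟩, rfl, ?_, ?_⟩
      · change pr x + d - pr x ∈ _
        rw [add_sub_cancel_left]; exact d.2
      · rw [sub_eq_iff_eq_add] at hd'
        rw [hd', add_comm]; rfl
  obtain ⟨y, hy1, hy2, hy3⟩ := key
  have hy2' : pr x - pr y ∈ hB.O := by
    have := hB.O.neg_mem hy2
    rwa [neg_sub] at this
  obtain ⟨g, hg, hgy⟩ := hB.exists_of_mem_O hy2' hy1
  rw [add_sub_cancel] at hgy
  have hc : w (g y) = g (w y) := by
    have := hcomm w hw g hg
    exact congrArg (fun t : Equiv.Perm (Dic P) => t y) this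
  have h1 : pr (w x) = pr (w (g y)) := by
    apply hA.pr_eq hw hgy.symm
    rw [hB.pi g hg, hx, hy1]
  have h2 : pr (g (w y)) = pr (g y) := by
    apply hB.pr_eq hg hy3
    rw [hA.pi w hw]
  rw [h1, hc, h2, hgy]

end Good

end Pool.Agent.BG
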