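import Mathlib

/-!
# A checker for refutations by reverse unit propagation

Clauses are lists of natural numbers; the literal `2 * a` is the atom `a` and the literal
`2 * a + 1` its negation.  The clause database is a binary trie indexed by natural numbers.
-/

set_option autoImplicit false

namespace Pool.Agent.BG.Rup

/-- The truth value of a literal. -/
def lit (v : Nat → Bool) (l : Nat) : Bool :=
  match l % 2 with
  | 0 => v (l / 2)
  | _ => !v (l / 2)

/-- The negation of a literal. -/
def neg (l : Nat) : Nat :=
  match l % 2 with
  | 0 => l + 1
  | _ => l - 1

theorem lit_neg (v : Nat → Bool) (l : Nat) : lit v (neg l) = !lit v l := by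
  rcases Nat.mod_two_eq_zero_or_one l with h | h
  · have h1 : neg l = l + 1 := by simp [neg, h]
    have h2 : (l + 1) % 2 = 1 := by omega
    have h3 : (l + 1) / 2 = l / 2 := by omega
    rw [h1]
    simp [lit, h, h2, h3]
  · have h1 : neg l = l - 1 := by simp [neg, h]
    have h2 : (l - 1) % 2 = 0 := by omega
    have h3 : (l - 1) / 2 = l / 2 := by omega
    rw [h1]
    simp [lit, h, h2, h3]

/-- The truth value of a clause. -/
def cl (v : Nat → Bool) : List Nat → Bool
  | [] => false
  | l :: c => lit v l || cl v c

/-- Binary tries of clauses. -/
inductive Trie where
  | nil : Trie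
  | node : List Nat → Trie → Trie → Trie

namespace Trie

/-- Look up the clause with the index `n`; the fuel bounds the number of bits. -/
def get : Trie → Nat → Nat → List Nat → List Nat
  | nil, _, _, d => d
  | node _ _ _, 0, _, d => d
  | node c a b, k + 1, n, d =>
    match n with
    | 0 => c
    | n + 1 => match n % 2 with
      | 0 => a.get k (n / 2) d
      | _ => b.get k (n / 2) d

/-- Insert a clause with index `n`. -/
def put (x : List Nat) : Trie → Nat → Nat → Trie
  | t, 0, _ => t
  | nil, k + 1, n =>
    match n with
    | 0 => node x nil nil
    | n + 1 => match n % 2 with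
      | 0 => node [0, 1] (put x nil k (n / 2)) nil
      | _ => node [0, 1] nil (put x nil k (n / 2))
  | node c a b, k + 1, n =>
    match n with
    | 0 => node x a b
    | n + 1 => match n % 2 with
      | 0 => node c (put x a k (n / 2)) b
      | _ => node c a (put x b k (n / 2))

/-- All clauses of the trie are true. -/
def Holds (v : Nat → Bool) : Trie → Prop
  | nil => True
  | node c a b => cl v c = true ∧ Holds v a ∧ Holds v b

theorem holds_get {v : Nat → Bool} (d : List Nat) (hd : cl v d = true) :
    ∀ (t : Trie) (k n : Nat), t.Holds v → cl v (t.get k n d) = true := by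
  intro t
  induction t with
  | nil => intro k n _; exact hd
  | node c a b iha ihb =>
    intro k n h
    cases k with
    | zero => exact hd
    | succ k =>
      cases n with
      | zero => exact h.1
      | succ n =>
        rw [get]
        split
        · exact iha _ _ h.2.1
        · exact ihb _ _ h.2.2

theorem cl_taut (v : Nat → Bool) : cl v [0, 1] = true := by
  simp [cl, lit]

theorem holds_put {v : Nat → Bool} {x : List Nat} (hx : cl v x = true) :
    ∀ (k : Nat) (t : Trie) (n : Nat), t.Holds v → (put x t k n).Holds v := by
  intro k
  induction k with
  | zero => intro t n h; cases t <;> exact h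
  | succ k ih =>
    intro t n h
    cases t with
    | nil =>
      cases n with
      | zero => exact ⟨hx, trivial, trivial⟩
      | succ n =>
        rw [put]
        split
        · exact ⟨cl_taut v, ih _ _ trivial, trivial⟩
        · exact ⟨cl_taut v, trivial, ih _ _ trivial⟩
    | node c a b =>
      cases n with
      | zero => exact ⟨hx, h.2.1, h.2.2⟩
      | succ n =>
        rw [put]
        split
        · exact ⟨h.1, ih _ _ h.2.1, h.2.2⟩
        · exact ⟨h.1, h.2.1, ih _ _ h.2.2⟩

end Trie

/-- Membership in a list of natural numbers. -/
def mem (l : Nat) : List Nat → Bool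
  | [] => false
  | a :: c => Nat.beq l a || mem l c

theorem mem_spec {l : Nat} : ∀ {c : List Nat}, mem l c = true → l ∈ c
  | [], h => by simp [mem] at h
  | a :: c, h => by
    rw [mem, Bool.or_eq_true] at h
    rcases h with h | h
    · rw [Nat.eq_of_beq_eq_true h]; exact List.mem_cons_self
    · exact List.mem_cons_of_mem _ (mem_spec h)

/-- The clause without the literals which are false under the list `as` of true literals. -/
def reduce (as : List Nat) : List Nat → List Nat
  | [] => []
  | l :: c => match mem (neg l) as with
    | true => reduce as c
    | false => l :: reduce as c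

theorem cl_reduce {v : Nat → Bool} {as : List Nat} (has : ∀ l ∈ as, lit v l = true) :
    ∀ c : List Nat, cl v c = true → cl v (reduce as c) = true
  | [], h => h
  | l :: c, h => by
    rw [cl, Bool.or_eq_true] at h
    rw [reduce]
    cases hm : mem (neg l) as
    · simp only
      rw [cl, Bool.or_eq_true]
      rcases h with h | h
      · exact Or.inl h
      · exact Or.inr (cl_reduce has c h)
    · simp only
      have h1 := has _ (mem_spec hm)
      rw [lit_neg] at h1
      rcases h with h | h
      · rw [h] at h1; exact absurd h1 (by decide)
      · exact cl_reduce has c h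

/-- Unit propagation along a list of hints, starting from the true literals `as`; the result is
`true` if a conflict is reached. -/
def prop (t : Trie) (fuel : Nat) : List Nat → List Nat → Bool
  | _, [] => false
  | as, i :: is =>
    match reduce as (t.get fuel i [0, 1]) with
    | [] => true
    | [l] => prop t fuel (l :: as) is
    | _ => false

theorem prop_sound {v : Nat → Bool} {t : Trie} (ht : t.Holds v) (fuel : Nat) :
    ∀ (is as : List Nat), (∀ l ∈ as, lit v l = true) → prop t fuel as is = true → False
  | [], _, _, h => by simp [prop] at h
  | i :: is, as, has, h => by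
    have h1 := cl_reduce has _ (Trie.holds_get [0, 1] (Trie.cl_taut v) t fuel i ht)
    rw [prop] at h
    split at h
    · rename_i e
      rw [e] at h1
      exact absurd h1 (by simp [cl])
    · rename_i l e
      rw [e] at h1
      simp only [cl, Bool.or_false] at h1
      refine prop_sound ht fuel is (l :: as) ?_ h
      intro k hk
      rcases List.mem_cons.1 hk with rfl | hk
      · exact h1
      · exact has k hk
    · exact absurd h (by simp)

/-- The list of the negated literals. -/
def negs : List Nat → List Nat
  | [] => []
  | l :: c => neg l :: negs c

theorem negs_spec {v : Nat → Bool} : ∀ {c : List Nat}, cl v c = false →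
    ∀ l ∈ negs c, lit v l = true
  | [], _, l, hl => by simp [negs] at hl
  | a :: c, h, l, hl => by
    rw [cl, Bool.or_eq_false_iff] at h
    rw [negs] at hl
    rcases List.mem_cons.1 hl with rfl | hl
    · rw [lit_neg, h.1]; rfl
    · exact negs_spec h.2 l hl

/-- A step of a refutation: index, clause, hints. -/
abbrev Step := Nat × List Nat × List Nat

/-- Is the clause empty? -/
def isNil : List Nat → Bool
  | [] => true
  | _ :: _ => false

/-- Check a refutation. -/
def check (fuel : Nat) : Trie → List Step → Bool
  | _, [] => false
  | t, (i, c, hs) :: ss =>
    match prop t fuel (negs c) hs with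
    | false => false
    | true => match isNil c with
      | true => true
      | false => check fuel (t.put c fuel i) ss

theorem check_sound {v : Nat → Bool} (fuel : Nat) :
    ∀ (ss : List Step) (t : Trie), t.Holds v → check fuel t ss = true → False
  | [], _, _, h => by simp [check] at h
  | (i, c, hs) :: ss, t, ht, h => by
    have hc : prop t fuel (negs c) hs = true → cl v c = true := by
      intro hp
      by_contra hne
      exact prop_sound ht fuel hs (negs c) (negs_spec (by simpa using hne)) hp
    rw [check] at h
    cases hp : prop t fuel (negs c) hs
    · rw [hp] at h; exact absurd h (by simp)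
    · rw [hp] at h
      have hc' := hc hp
      cases hn : isNil c
      · rw [hn] at h
        exact check_sound fuel ss _ (Trie.holds_put hc' _ _ _ ht) h
      · cases c with
        | nil => simp [cl] at hc'
        | cons a c => simp [isNil] at hn

/-- Build a trie from a list of clauses, numbered from `i`. -/
def build (fuel : Nat) : Trie → Nat → List (List Nat) → Trie
  | t, _, [] => t
  | t, i, c :: cs => build fuel (t.put c fuel i) (i + 1) cs

theorem build_holds {v : Nat → Bool} (fuel : Nat) :
    ∀ (cs : List (List Nat)) (t : Trie) (i : Nat), t.Holds v → (∀ c ∈ cs, cl v c = true) →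
      (build fuel t i cs).Holds v
  | [], _, _, ht, _ => ht
  | c :: cs, t, i, ht, h => by
    rw [build]
    exact build_holds fuel cs _ _ (Trie.holds_put (h c List.mem_cons_self) _ _ _ ht)
      (fun c hc => h c (List.mem_cons_of_mem _ hc))

/-- The main theorem: clauses numbered from `1` (as in LRAT) and refutation steps. -/
theorem refute {v : Nat → Bool} (fuel : Nat) (cs : List (List Nat)) (ss : List Step)
    (hcheck : check fuel (build fuel Trie.nil 1 cs) ss = true)
    (h : ∀ c ∈ cs, cl v c = true) : False :=
  check_sound fuel ss _ (build_holds fuel cs Trie.nil 1 (by trivial) h) hcheck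

/-- A small test. -/
example : check 10 (build 10 Trie.nil 1 [[0, 2], [0, 3], [1, 2], [1, 3]])
    [(5, [0], [1, 2]), (6, [], [5, 3, 4])] = true := by decide +kernel

end Pool.Agent.BG.Rup
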