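import Pool.Agent.Lib.MP_291637_al.Str

/-!
# The group and the situation

`P` is an abelian group with the properties of a quasicyclic group for an odd prime, `A = P × C₂`,
and `Dic P` is the dicyclic extension of `A`, on the set `A × Bool`.  A situation is a symmetric
two-coloured relation on `Dic P` which is invariant under the left regular representation, whose
automorphism group is primitive, and which is the orbital graph of the pair `(1, c)`, not complete.
-/

set_option autoImplicit false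

namespace Pool.Agent.BG

/-- The properties of the quasicyclic group of an odd prime which are used. -/
class Pruf (P : Type) [AddCommGroup P] : Prop where
  inf : Infinite P
  cnt : Countable P
  sub : ∀ M : AddSubgroup P, M = ⊤ ∨ (Finite M ∧ Odd (Nat.card M))
  tot : ∀ M N : AddSubgroup P, M ≤ N ∨ N ≤ M
  tors : ∀ x : P, ∃ n : ℕ, Odd n ∧ n • x = 0

/-- The abelian group `A`. -/
abbrev AA (P : Type) [AddCommGroup P] : Type := P × ZMod 2

/-- The underlying set of the dicyclic group. -/
abbrev VV (P : Type) [AddCommGroup P] : Type := AA P × Bool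

variable {P : Type} [AddCommGroup P]

/-- The involution of `A`. -/
def cA : AA P := (0, 1)

theorem cA_add : (cA : AA P) + cA = 0 := by
  refine Prod.ext (by simp [cA]) (by simp only [cA, Prod.snd_add, Prod.snd_zero]; decide)

theorem cA_ne : (cA : AA P) ≠ 0 := by
  intro e
  have := congrArg Prod.snd e
  simp [cA] at this

theorem neg_cA : -(cA : AA P) = cA := by
  rw [neg_eq_iff_add_eq_zero, cA_add]

theorem add_cA_add (x : AA P) : x + cA + cA = x := by
  rw [add_assoc, cA_add, add_zero]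

theorem sub_cA (x : AA P) : x - cA = x + cA := by
  rw [sub_eq_add_neg, neg_cA]

/-- The dicyclic group. -/
structure Dic (P : Type) [AddCommGroup P] where
  /-- the coordinate in `A` -/
  a : AA P
  /-- the coset -/
  i : Bool

namespace Dic

@[ext] theorem ext' {x y : Dic P} (h1 : x.a = y.a) (h2 : x.i = y.i) : x = y := by
  cases x; cases y; simp_all

instance : Mul (Dic P) :=
  ⟨fun x y => match x.i, y.i with
    | false, j => ⟨x.a + y.a, j⟩
    | true, false => ⟨x.a - y.a, true⟩
    | true, true => ⟨x.a - y.a + cA, false⟩⟩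

instance : One (Dic P) := ⟨⟨0, false⟩⟩

instance : Inv (Dic P) := ⟨fun x => match x.i with
  | false => ⟨-x.a, false⟩
  | true => ⟨x.a + cA, true⟩⟩

theorem mul_f (a b : AA P) (j : Bool) : (⟨a, false⟩ : Dic P) * ⟨b, j⟩ = ⟨a + b, j⟩ := by
  cases j <;> rfl
theorem mul_tf (a b : AA P) : (⟨a, true⟩ : Dic P) * ⟨b, false⟩ = ⟨a - b, true⟩ := rfl
theorem mul_tt (a b : AA P) : (⟨a, true⟩ : Dic P) * ⟨b, true⟩ = ⟨a - b + cA, false⟩ := rfl
theorem one_def : (1 : Dic P) = ⟨0, false⟩ := rfl
theorem inv_f (a : AA P) : (⟨a, false⟩ : Dic P)⁻¹ = ⟨-a, false⟩ := rfl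
theorem inv_t (a : AA P) : (⟨a, true⟩ : Dic P)⁻¹ = ⟨a + cA, true⟩ := rfl

instance : Group (Dic P) where
  mul_assoc x y z := by
    obtain ⟨a, i⟩ := x
    obtain ⟨b, j⟩ := y
    obtain ⟨d, k⟩ := z
    cases i <;> cases j <;> cases k <;>
      simp only [mul_f, mul_tf, mul_tt, Dic.mk.injEq, and_true]
    · abel
    · abel
    · abel
    · abel
    · abel
    · abel
    · abel
    · rw [show a - (b - d + cA) = a - b + d - cA by abel, sub_cA,
        show a - b + cA + d = a - b + d + cA by abel]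
  one_mul x := by
    obtain ⟨a, i⟩ := x
    rw [one_def, mul_f, zero_add]
  mul_one x := by
    obtain ⟨a, i⟩ := x
    cases i
    · rw [one_def, mul_f, add_zero]
    · rw [one_def, mul_tf, sub_zero]
  inv_mul_cancel x := by
    obtain ⟨a, i⟩ := x
    cases i
    · rw [inv_f, mul_f, neg_add_cancel]; rfl
    · rw [inv_t, mul_tt, show a + cA - a + cA = cA + cA by abel, cA_add]; rfl

/-- The central involution. -/
def c : Dic P := ⟨cA, false⟩

theorem c_mul_c : (c : Dic P) * c = 1 := by
  rw [c, mul_f, cA_add]; rfl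

theorem c_ne_one : (c : Dic P) ≠ 1 := by
  intro e
  have := congrArg Dic.a e
  exact cA_ne this

/-- The dicyclic group as a product. -/
def equiv : Dic P ≃ VV P where
  toFun x := (x.a, x.i)
  invFun x := ⟨x.1, x.2⟩
  left_inv _ := rfl
  right_inv _ := rfl

end Dic

/-- The situation. -/
structure Sit (P : Type) [AddCommGroup P] where
  /-- the relation -/
  f : Dic P → Dic P → Bool
  symm : ∀ x y, f x y = f y x
  inv : ∀ z x y, f (z * x) (z * y) = f x y
  prim : ∀ r : Setoid (Dic P), (∀ g ∈ Aut f, ∀ x y, r x y → r (g x) (g y)) → r = ⊥ ∨ r = ⊤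
  irr : ∀ x, f x x = false
  edge : f 1 Dic.c = true
  homog : ∀ x y, f x y = true → ∃ g ∈ Aut f, g 1 = x ∧ g Dic.c = y
  nonedge : ∃ x y, x ≠ y ∧ f x y = false

namespace Sit

variable (S : Sit P)

/-- The colouring inside one half. -/
def f0 (d : AA P) : Bool := S.f ⟨0, false⟩ ⟨d, false⟩

/-- The cross colouring. -/
def g (d : AA P) : Bool := S.f ⟨0, false⟩ ⟨d, true⟩

theorem f_ff (x y : AA P) : S.f ⟨x, false⟩ ⟨y, false⟩ = S.f0 (y - x) := by
  have := S.inv ⟨x, false⟩ ⟨0, false⟩ ⟨y - x, false⟩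
  rwa [Dic.mul_f, Dic.mul_f, add_zero, add_sub_cancel] at this

theorem f_ft (x y : AA P) : S.f ⟨x, false⟩ ⟨y, true⟩ = S.g (y - x) := by
  have := S.inv ⟨x, false⟩ ⟨0, false⟩ ⟨y - x, true⟩
  rwa [Dic.mul_f, Dic.mul_f, add_zero, add_sub_cancel] at this

theorem f_tf (x y : AA P) : S.f ⟨x, true⟩ ⟨y, false⟩ = S.g (x - y) := by
  rw [S.symm, f_ft]

theorem f0_neg (d : AA P) : S.f0 (-d) = S.f0 d := by
  have := S.f_ff d 0
  rw [S.symm, f_ff, sub_zero, zero_sub] at this
  exact this.symm

theorem f_tt (x y : AA P) : S.f ⟨x, true⟩ ⟨y, true⟩ = S.f0 (y - x) := by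
  rw [← S.inv ⟨x, true⟩⁻¹, Dic.inv_t, Dic.mul_tt, Dic.mul_tt, f_ff, ← S.f0_neg]
  congr 1; abel

theorem g_add_cA (d : AA P) : S.g (d + cA) = S.g d := by
  have h1 := S.inv ⟨d, true⟩ ⟨0, false⟩ ⟨d + cA, true⟩
  rw [Dic.mul_tf, Dic.mul_tt, f_tf, f_ft, sub_zero,
    show d - (d + cA) + cA = 0 by abel, sub_zero, sub_zero] at h1
  exact h1.symm

theorem f0_zero : S.f0 0 = false := S.irr _

theorem f0_cA : S.f0 cA = true := S.edge

end Sit

end Pool.Agent.BG
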