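import Mathlib

/-!
# Half structures of a graph

`f` is a symmetric two-coloured relation on `V`. A half structure is an involution `c` without
fixed points together with a cut `h` invariant under `c`, such that both halves of `c` are
automorphisms, points of one half which are not `c`-partners are separated by the other half, and
each half is connected.
-/

set_option autoImplicit false

namespace Pool.Agent.BG

variable {V : Type*}

/-- A half structure for the relation `f`. -/
structure Str (f : V → V → Bool) where
  /-- the involution -/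
  c : V → V
  /-- the cut -/
  h : V → Bool
  cc : ∀ x, c (c x) = x
  fpf : ∀ x, c x ≠ x
  hc : ∀ x, h (c x) = h x
  aut : ∀ x y, f (c x) (c y) = f x y
  flat : ∀ x y, h x ≠ h y → f (c x) y = f x y
  sep : ∀ x y, h x = h y → y ≠ x → y ≠ c x → ∃ z, h z ≠ h x ∧ f x z ≠ f y z
  conn : ∀ (b : Bool) (U : Set V), (∀ x ∈ U, h x = b) → (∀ x ∈ U, c x ∈ U) → U.Nonempty →
    (∀ x ∈ U, ∀ y, y ∉ U → h y = b → f (c x) y = f x y) → ∀ y, h y = b → y ∈ U

/-- Automorphisms of `f`. -/
def Aut (f : V → V → Bool) : Subgroup (Equiv.Perm V) where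
  carrier := {g | ∀ x y, f (g x) (g y) = f x y}
  mul_mem' {a b} ha hb x y := by simp only [Equiv.Perm.mul_apply]; rw [ha, hb]
  one_mem' x y := rfl
  inv_mem' {a} ha x y := by
    have := ha (a⁻¹ x) (a⁻¹ y)
    simpa using this.symm

theorem mem_Aut {f : V → V → Bool} {g : Equiv.Perm V} :
    g ∈ Aut f ↔ ∀ x y, f (g x) (g y) = f x y := Iff.rfl

namespace Str

variable {f : V → V → Bool}

theorem c_inj (P : Str f) {x y : V} (e : P.c x = P.c y) : x = y := by
  rw [← P.cc x, e, P.cc]

theorem c_eq_comm (P : Str f) {x y : V} : P.c x = y ↔ x = P.c y :=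
  ⟨fun e => by rw [← e, P.cc], fun e => by rw [e, P.cc]⟩

/-- The involution as a permutation. -/
def perm (P : Str f) : Equiv.Perm V := ⟨P.c, P.c, P.cc, P.cc⟩

@[simp] theorem perm_apply (P : Str f) (x : V) : P.perm x = P.c x := rfl

/-- The half of the involution moving the points with label `b`. -/
def half (P : Str f) (b : Bool) : Equiv.Perm V :=
  have hinv : ∀ x, (fun x => if P.h x = b then P.c x else x)
      ((fun x => if P.h x = b then P.c x else x) x) = x := by
    intro x
    by_cases e : P.h x = b
    · simp [e, P.hc, P.cc]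
    · simp [e]
  ⟨fun x => if P.h x = b then P.c x else x, fun x => if P.h x = b then P.c x else x, hinv, hinv⟩

theorem half_apply (P : Str f) (b : Bool) (x : V) :
    P.half b x = if P.h x = b then P.c x else x := rfl

theorem half_of_eq (P : Str f) {b : Bool} {x : V} (e : P.h x = b) : P.half b x = P.c x := by
  rw [half_apply, if_pos e]

theorem half_of_ne (P : Str f) {b : Bool} {x : V} (e : P.h x ≠ b) : P.half b x = x := by
  rw [half_apply, if_neg e]

@[simp] theorem h_half (P : Str f) (b : Bool) (x : V) : P.h (P.half b x) = P.h x := by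
  rw [half_apply]; split_ifs <;> simp [P.hc]

@[simp] theorem half_half (P : Str f) (b : Bool) (x : V) : P.half b (P.half b x) = x := by
  by_cases e : P.h x = b
  · rw [P.half_of_eq e, P.half_of_eq (by rw [P.hc, e]), P.cc]
  · rw [P.half_of_ne e, P.half_of_ne e]

theorem perm_mem (P : Str f) : P.perm ∈ Aut f := fun x y => P.aut x y

/-- The second form of flatness. -/
theorem flat' (P : Str f) (hf : ∀ x y, f x y = f y x) {x y : V} (e : P.h x ≠ P.h y) :
    f x (P.c y) = f x y := by
  rw [hf x (P.c y), P.flat y x (Ne.symm e), hf]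

theorem half_mem (P : Str f) (hf : ∀ x y, f x y = f y x) (b : Bool) : P.half b ∈ Aut f := by
  intro x y
  rw [half_apply, half_apply]
  by_cases ex : P.h x = b <;> by_cases ey : P.h y = b
  · simp only [ex, ey, if_true, P.aut]
  · simp only [ex, ey, if_true, if_false]
    exact P.flat x y (by rw [ex]; exact Ne.symm ey)
  · simp only [ex, ey, if_true, if_false]
    exact P.flat' hf (by rw [ey]; exact ex)
  · simp only [ex, ey, if_false]

/-- A permutation preserving `f` and the points of one half of a structure is trivial or the other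
half. -/
theorem fix_half (P : Str f) {g : Equiv.Perm V} (hg : g ∈ Aut f)
    {b : Bool} (hfix : ∀ x, P.h x ≠ b → g x = x) :
    g = 1 ∨ g = P.half b := by
  have hpres : ∀ x, P.h x = b → P.h (g x) = b := by
    intro x hx
    by_contra hne
    have := g.injective (hfix _ hne)
    exact hne (by rw [this, hx])
  have key : ∀ x, P.h x = b → g x = x ∨ g x = P.c x := by
    intro x hx
    by_contra hcon
    push Not at hcon
    obtain ⟨z, hz, hz'⟩ := P.sep x (g x) (by rw [hx, hpres x hx]) hcon.1 hcon.2
    apply hz'
    have e := hg x z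
    rw [hfix z (by rw [← hx]; exact hz)] at e
    exact e.symm
  by_cases hU : ∃ x, P.h x = b ∧ g x ≠ x
  · right
    have hall := P.conn b {x | P.h x = b ∧ g x ≠ x} (fun x hx => hx.1) ?_ hU ?_
    · ext x
      by_cases hx : P.h x = b
      · rw [P.half_of_eq hx]
        exact (key x hx).resolve_left (hall x hx).2
      · rw [P.half_of_ne hx]
        exact hfix x hx
    · rintro x ⟨hx, hgx⟩
      refine ⟨by rw [P.hc, hx], fun e => ?_⟩
      have h1 := (key x hx).resolve_left hgx
      exact P.fpf x (g.injective (by rw [e, h1]))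
    · rintro x ⟨hx, hgx⟩ y hy hyb
      have h1 := (key x hx).resolve_left hgx
      have h2 : g y = y := by
        by_contra h2
        exact hy ⟨hyb, h2⟩
      rw [← h1]
      conv_lhs => rw [← h2]
      exact hg x y
  · left
    push Not at hU
    ext x
    by_cases hx : P.h x = b
    · exact hU x hx
    · exact hfix x hx

/-- An automorphism which preserves the cut commutes with the halves of the involution. -/
theorem commute_of_cut (P : Str f) (hf : ∀ x y, f x y = f y x) {g : Equiv.Perm V}
    (hg : g ∈ Aut f) (hcut : ∀ x, P.h (g x) = P.h x) (b : Bool) :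
    g * P.half b = P.half b * g := by
  have h1 : g⁻¹ * P.half b * g ∈ Aut f :=
    mul_mem (mul_mem (inv_mem hg) (P.half_mem hf b)) hg
  have hfix : ∀ x, P.h x ≠ b → (g⁻¹ * P.half b * g) x = x := by
    intro x hx
    simp only [Equiv.Perm.mul_apply]
    rw [P.half_of_ne (by rw [hcut]; exact hx)]
    simp
  rcases P.fix_half h1 hfix with e | e
  · -- then the half is trivial, both sides are equal
    have : P.half b = 1 := by
      have := congrArg (fun t => g * t * g⁻¹) e
      simpa [mul_assoc] using this
    rw [this]; simp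
  · have := congrArg (fun t => g * t) e
    simpa [mul_assoc] using this.symm

theorem commute_c_of_cut (P : Str f) (hf : ∀ x y, f x y = f y x) {g : Equiv.Perm V}
    (hg : g ∈ Aut f) (hcut : ∀ x, P.h (g x) = P.h x) (x : V) : g (P.c x) = P.c (g x) := by
  have e := P.commute_of_cut hf hg hcut (P.h x)
  have e1 := congrArg (fun t : Equiv.Perm V => t x) e
  simp only [Equiv.Perm.mul_apply] at e1
  rwa [P.half_of_eq rfl, P.half_of_eq (hcut x)] at e1

/-- The structure with the two labels exchanged. -/
def flip (P : Str f) : Str f where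
  c := P.c
  h x := !P.h x
  cc := P.cc
  fpf := P.fpf
  hc x := by rw [P.hc]
  aut := P.aut
  flat x y e := P.flat x y (fun e' => e (by rw [e']))
  sep x y e h1 h2 := by
    obtain ⟨z, hz, hz'⟩ := P.sep x y (by simpa using e) h1 h2
    exact ⟨z, fun e' => hz (by simpa using e'), hz'⟩
  conn b U h1 h2 h3 h4 y hy := by
    refine P.conn (!b) U (fun x hx => by have := h1 x hx; rw [← this]; simp) h2 h3
      (fun x hx y hy hb => h4 x hx y hy (by rw [hb]; simp)) y (by rw [← hy]; simp)

/-- The image of a structure under an automorphism. -/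
def conj (P : Str f) (g : Equiv.Perm V) (hg : g ∈ Aut f) : Str f where
  c x := g (P.c (g⁻¹ x))
  h x := P.h (g⁻¹ x)
  cc x := by simp [P.cc]
  fpf x e := P.fpf (g⁻¹ x) (by
    have := congrArg (fun t => g⁻¹ t) e
    simpa using this)
  hc x := by simp [P.hc]
  aut x y := by
    have h1 := hg (P.c (g⁻¹ x)) (P.c (g⁻¹ y))
    have h2 := P.aut (g⁻¹ x) (g⁻¹ y)
    have h3 := inv_mem hg x y
    rw [h1, h2, h3]
  flat x y e := by
    have h1 := inv_mem hg (g (P.c (g⁻¹ x))) y
    have h3 := inv_mem hg x y
    rw [← h1, ← h3]
    simpa using P.flat (g⁻¹ x) (g⁻¹ y) e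
  sep x y e h1 h2 := by
    obtain ⟨z, hz, hz'⟩ := P.sep (g⁻¹ x) (g⁻¹ y) e (fun e' => h1 (g⁻¹.injective e'))
      (fun e' => h2 (by rw [← e']; simp))
    refine ⟨g z, by simpa using hz, ?_⟩
    have e1 := inv_mem hg x (g z)
    have e2 := inv_mem hg y (g z)
    rw [← e1, ← e2]
    simpa using hz'
  conn b U h1 h2 h3 h4 y hy := by
    have := P.conn b (g ⁻¹' U) (fun x hx => by simpa using h1 (g x) hx)
      (fun x hx => by
        have := h2 (g x) hx
        simpa using this)
      (by obtain ⟨x, hx⟩ := h3; exact ⟨g⁻¹ x, by simpa using hx⟩)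
      (fun x hx y hy hb => by
        have := h4 (g x) hx (g y) hy (by simpa using hb)
        have e1 := hg (P.c x) y
        have e2 := hg x y
        rw [← e1, ← e2]
        simpa using this)
      (g⁻¹ y) hy
    simpa using this

end Str

end Pool.Agent.BG
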