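import Mathlib

/-!
# A checker for coset tables

Given involutions `c l : V → V` and relators (words in the letters `l`) which act trivially, a log of
definitions and deductions produces a table `T` such that for some `pt : ℕ → V` with `pt 0 = x` each
entry `T (n, l) = m` means `c l (pt n) = pt m`.
-/

set_option autoImplicit false

namespace Pool.Agent.BG.Tab

/-- Binary tries of natural numbers. -/
inductive NT where
  | nil : NT
  | node : Nat → NT → NT → NT

namespace NT

/-- Look up; the value `0` means that there is no entry. -/
def get : NT → Nat → Nat → Nat
  | nil, _, _ => 0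
  | node _ _ _, 0, _ => 0
  | node v a b, k + 1, n =>
    match n with
    | 0 => v
    | n + 1 => match n % 2 with
      | 0 => a.get k (n / 2)
      | _ => b.get k (n / 2)

/-- Insert. -/
def put (x : Nat) : NT → Nat → Nat → NT
  | t, 0, _ => t
  | nil, k + 1, n =>
    match n with
    | 0 => node x nil nil
    | n + 1 => match n % 2 with
      | 0 => node 0 (put x nil k (n / 2)) nil
      | _ => node 0 nil (put x nil k (n / 2))
  | node v a b, k + 1, n =>
    match n with
    | 0 => node x a b
    | n + 1 => match n % 2 with
      | 0 => node v (put x a k (n / 2)) b
      | _ => node v a (put x b k (n / 2))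

theorem get_put (x : Nat) : ∀ (k : Nat) (t : NT) (n m y : Nat), (put x t k n).get k m = y + 1 →
    (m = n ∧ y + 1 = x) ∨ t.get k m = y + 1 := by
  intro k
  induction k with
  | zero =>
    intro t n m y h
    right
    cases t <;> exact h
  | succ k ih =>
    intro t n m y h
    have hnil : ∀ (n m y : Nat), (put x nil k n).get k m = y + 1 → (m = n ∧ y + 1 = x) := by
      intro n m y h
      rcases ih nil n m y h with h1 | h1
      · exact h1
      · simp [get] at h1
    cases t with
    | nil =>
      left
      cases n with
      | zero =>
        cases m with
        | zero => simp only [put, get] at h; exact ⟨rfl, h.symm⟩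
        | succ m =>
          simp only [put, get] at h
          split at h <;> exact absurd h (by simp)
      | succ n =>
        rcases Nat.mod_two_eq_zero_or_one n with hn | hn
        · simp only [put, hn] at h
          cases m with
          | zero => simp [get] at h
          | succ m =>
            rcases Nat.mod_two_eq_zero_or_one m with hm | hm
            · simp only [get, hm] at h
              obtain ⟨h1, h2⟩ := hnil _ _ _ h
              exact ⟨by omega, h2⟩
            · simp only [get, hm] at h
              exact absurd h (by simp)
        · simp only [put, hn] at h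
          cases m with
          | zero => simp [get] at h
          | succ m =>
            rcases Nat.mod_two_eq_zero_or_one m with hm | hm
            · simp only [get, hm] at h
              exact absurd h (by simp)
            · simp only [get, hm] at h
              obtain ⟨h1, h2⟩ := hnil _ _ _ h
              exact ⟨by omega, h2⟩
    | node v a b =>
      cases n with
      | zero =>
        cases m with
        | zero => simp only [put, get] at h; exact Or.inl ⟨rfl, h.symm⟩
        | succ m =>
          right
          simp only [put, get] at h ⊢
          exact h
      | succ n =>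
        rcases Nat.mod_two_eq_zero_or_one n with hn | hn
        · simp only [put, hn] at h
          cases m with
          | zero => right; simpa [get] using h
          | succ m =>
            rcases Nat.mod_two_eq_zero_or_one m with hm | hm
            · simp only [get, hm] at h ⊢
              rcases ih _ _ _ _ h with ⟨h1, h2⟩ | h1
              · exact Or.inl ⟨by omega, h2⟩
              · exact Or.inr h1
            · simp only [get, hm] at h ⊢
              exact Or.inr h
        · simp only [put, hn] at h
          cases m with
          | zero => right; simpa [get] using h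
          | succ m =>
            rcases Nat.mod_two_eq_zero_or_one m with hm | hm
            · simp only [get, hm] at h ⊢
              exact Or.inr h
            · simp only [get, hm] at h ⊢
              rcases ih _ _ _ _ h with ⟨h1, h2⟩ | h1
              · exact Or.inl ⟨by omega, h2⟩
              · exact Or.inr h1

end NT

variable {V : Type*}

/-- Apply the letters of a word, the first letter first. -/
def run (c : Nat → V → V) : List Nat → V → V
  | [], x => x
  | l :: w, x => run c w (c l x)

theorem run_append (c : Nat → V → V) : ∀ (u w : List Nat) (x : V),
    run c (u ++ w) x = run c w (run c u x)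
  | [], _, _ => rfl
  | l :: u, w, x => run_append c u w (c l x)

theorem run_reverse (c : Nat → V → V) (hc : ∀ l x, c l (c l x) = x) :
    ∀ (w : List Nat) (x : V), run c w (run c w.reverse x) = x
  | [], _ => rfl
  | l :: w, x => by
    rw [List.reverse_cons, run_append]
    change run c w (c l (c l (run c w.reverse x))) = x
    rw [hc, run_reverse c hc w]

theorem run_inj (c : Nat → V → V) (hc : ∀ l x, c l (c l x) = x) :
    ∀ (w : List Nat) {x y : V}, run c w x = run c w y → x = y
  | [], _, _, h => h
  | l :: w, x, y, h => by
    have h1 := run_inj c hc w (x := c l x) (y := c l y) h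
    rw [← hc l x, h1, hc]

/-- Walk through the table along a word; the result is `m + 1` for the end point `m`, or `0`. -/
def walk (T : NT) (fuel K : Nat) : List Nat → Nat → Nat
  | [], n => n + 1
  | l :: w, n =>
    match T.get fuel (n * K + l) with
    | 0 => 0
    | m + 1 => walk T fuel K w m

/-- A table is correct for a family of points. -/
def Ok (c : Nat → V → V) (fuel K N : Nat) (pt : Nat → V) (T : NT) : Prop :=
  ∀ i y, T.get fuel i = y + 1 → i / K < N ∧ y < N ∧ c (i % K) (pt (i / K)) = pt y

theorem key_div {K n l : Nat} (hl : l < K) : (n * K + l) / K = n := by
  rw [Nat.add_comm, Nat.add_mul_div_right _ _ (by omega), Nat.div_eq_of_lt hl, Nat.zero_add]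

theorem key_mod {K n l : Nat} (hl : l < K) : (n * K + l) % K = l := by
  rw [Nat.add_comm, Nat.add_mul_mod_self_right, Nat.mod_eq_of_lt hl]

theorem Ok.entry {c : Nat → V → V} {fuel K N : Nat} {pt : Nat → V} {T : NT}
    (h : Ok c fuel K N pt T) {n l m : Nat} (hl : l < K) (e : T.get fuel (n * K + l) = m + 1) :
    c l (pt n) = pt m := by
  have := (h _ _ e).2.2
  rwa [key_div hl, key_mod hl] at this

theorem walk_sound {c : Nat → V → V} {fuel K N : Nat} {pt : Nat → V} {T : NT}
    (h : Ok c fuel K N pt T) : ∀ (w : List Nat) (n m : Nat), (∀ l ∈ w, l < K) → n < N →
      walk T fuel K w n = m + 1 → m < N ∧ run c w (pt n) = pt m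
  | [], n, m, _, hn, e => by
    simp only [walk, Nat.add_right_cancel_iff] at e
    subst e
    exact ⟨hn, rfl⟩
  | l :: w, n, m, hw, hn, e => by
    rw [walk] at e
    split at e
    · exact absurd e (by simp)
    · rename_i k hk
      have hl : l < K := hw l List.mem_cons_self
      have h1 := walk_sound h w k m (fun l hl => hw l (List.mem_cons_of_mem _ hl)) (h _ _ hk).2.1 e
      refine ⟨h1.1, ?_⟩
      change run c w (c l (pt n)) = pt m
      rw [h.entry hl hk]
      exact h1.2

/-- The letter at position `i` (or `K` if there is none). -/
def nth (K : Nat) : List Nat → Nat → Nat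
  | [], _ => K
  | l :: _, 0 => l
  | _ :: w, i + 1 => nth K w i

/-- The word before position `i`. -/
def pre : List Nat → Nat → List Nat
  | [], _ => []
  | _ :: _, 0 => []
  | l :: w, i + 1 => l :: pre w i

/-- The word after position `i`, reversed, in front of `acc`. -/
def revPost : List Nat → Nat → List Nat → List Nat
  | [], _, acc => acc
  | _ :: w, 0, acc => w.reverse ++ acc
  | _ :: w, i + 1, acc => revPost w i acc

theorem split_word (K : Nat) : ∀ (w : List Nat) (i : Nat), (∀ l ∈ w, l < K) → nth K w i < K →
    w = pre w i ++ nth K w i :: (revPost w i []).reverse
  | [], i, _, h => by simp [nth] at h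
  | l :: w, 0, _, _ => by simp [nth, pre, revPost]
  | l :: w, i + 1, hw, h => by
    have := split_word K w i (fun l hl => hw l (List.mem_cons_of_mem _ hl)) h
    simp only [pre, nth, revPost, List.cons_append]
    rw [← this]

/-- All letters are less than `K`. -/
def allLt (K : Nat) : List Nat → Bool
  | [] => true
  | l :: w => Nat.blt l K && allLt K w

theorem allLt_spec {K : Nat} : ∀ {w : List Nat}, allLt K w = true → ∀ l ∈ w, l < K
  | [], _, l, hl => by simp at hl
  | a :: w, h, l, hl => by
    rw [allLt, Bool.and_eq_true] at h
    rcases List.mem_cons.1 hl with rfl | hl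
    · simpa [Nat.blt_eq] using h.1
    · exact allLt_spec h.2 l hl

/-- The relator with index `r`. -/
def rel : List (List Nat) → Nat → List Nat
  | [], _ => []
  | w :: _, 0 => w
  | _ :: ws, r + 1 => rel ws r

/-- Process a log.  The step `(n, 0, l)` defines a new point, the image of `n` under `l`; the step
`(n, r + 1, i)` is the deduction from relator `r` at the node `n` and position `i`.  The result is
the table, or `nil` in case of an error. -/
def process (rels : List (List Nat)) (fuel K : Nat) : List (Nat × Nat × Nat) → NT → Nat → NT
  | [], T, _ => T
  | (n, 0, l) :: ss, T, N =>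
    match Nat.blt n N && Nat.blt l K with
    | false => NT.nil
    | true => process rels fuel K ss
        ((T.put (N + 1) fuel (n * K + l)).put (n + 1) fuel (N * K + l)) (N + 1)
  | (n, r + 1, i) :: ss, T, N =>
    match Nat.blt n N && (allLt K (rel rels r) && Nat.blt (nth K (rel rels r) i) K) with
    | false => NT.nil
    | true =>
      match walk T fuel K (pre (rel rels r) i) n with
      | 0 => NT.nil
      | a + 1 =>
        match walk T fuel K (revPost (rel rels r) i []) n with
        | 0 => NT.nil
        | b + 1 => process rels fuel K ss
            ((T.put (b + 1) fuel (a * K + nth K (rel rels r) i)).put (a + 1) fuel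
              (b * K + nth K (rel rels r) i)) N

theorem Ok.put {c : Nat → V → V} {fuel K N : Nat} {pt : Nat → V} {T : NT}
    (h : Ok c fuel K N pt T) {n l m : Nat} (hl : l < K) (hn : n < N) (hm : m < N)
    (e : c l (pt n) = pt m) : Ok c fuel K N pt (T.put (m + 1) fuel (n * K + l)) := by
  intro i y hy
  rcases NT.get_put _ _ _ _ _ _ hy with ⟨h1, h2⟩ | h1
  · have : y = m := by omega
    subst h1 this
    rw [key_div hl, key_mod hl]
    exact ⟨hn, hm, e⟩
  · exact h i y h1

theorem ok_nil (c : Nat → V → V) (fuel K N : Nat) (pt : Nat → V) : Ok c fuel K N pt NT.nil := by
  intro i y hy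
  simp [NT.get] at hy

theorem process_sound {c : Nat → V → V} (hc : ∀ l x, c l (c l x) = x) {rels : List (List Nat)}
    (hrel : ∀ w ∈ rels, ∀ x, run c w x = x) (fuel K : Nat) :
    ∀ (ss : List (Nat × Nat × Nat)) (T : NT) (N : Nat) (pt : Nat → V), 0 < N →
      Ok c fuel K N pt T →
      ∃ (pt' : Nat → V) (N' : Nat), pt' 0 = pt 0 ∧ Ok c fuel K N' pt' (process rels fuel K ss T N)
  | [], T, N, pt, _, h => ⟨pt, N, rfl, h⟩
  | (n, 0, l) :: ss, T, N, pt, hN, h => by
    rw [process]
    split
    · exact ⟨pt, N, rfl, ok_nil _ _ _ _ _⟩
    · rename_i hb
      rw [Bool.and_eq_true, Nat.blt_eq, Nat.blt_eq] at hb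
      obtain ⟨hn, hl⟩ := hb
      let pt' : Nat → V := fun k => if k = N then c l (pt n) else pt k
      have hlt : ∀ k, k < N → pt' k = pt k := by
        intro k hk
        simp only [pt']
        rw [if_neg (by omega)]
      have hNN : pt' N = c l (pt n) := by simp [pt']
      have h1 : Ok c fuel K (N + 1) pt' T := by
        intro i y hy
        obtain ⟨a, b, e⟩ := h i y hy
        exact ⟨by omega, by omega, by rw [hlt _ a, hlt _ b, e]⟩
      have h2 := h1.put (n := n) (l := l) (m := N) hl (by omega) (by omega)
        (by rw [hlt n hn, hNN])
      have h3 := h2.put (n := N) (l := l) (m := n) hl (by omega) (by omega)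
        (by rw [hlt n hn, hNN, hc])
      obtain ⟨pt'', N'', e1, e2⟩ := process_sound hc hrel fuel K ss _ (N + 1) pt' (by omega) h3
      exact ⟨pt'', N'', by rw [e1, hlt 0 hN], e2⟩
  | (n, r + 1, i) :: ss, T, N, pt, hN, h => by
    rw [process]
    split
    · exact ⟨pt, N, rfl, ok_nil _ _ _ _ _⟩
    · rename_i hb
      rw [Bool.and_eq_true, Bool.and_eq_true, Nat.blt_eq, Nat.blt_eq] at hb
      obtain ⟨hn, hall, hl⟩ := hb
      have hw := allLt_spec hall
      split
      · exact ⟨pt, N, rfl, ok_nil _ _ _ _ _⟩
      · rename_i a ha
        split
        · exact ⟨pt, N, rfl, ok_nil _ _ _ _ _⟩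
        · rename_i b hb
          have hsplit := split_word K _ i hw hl
          set w := rel rels r with hwdef
          have hsub1 : ∀ l ∈ pre w i, l < K := by
            intro l hl'
            exact hw l (by rw [hsplit]; exact List.mem_append_left _ hl')
          have hsub2 : ∀ l ∈ revPost w i [], l < K := by
            intro l hl'
            refine hw l ?_
            rw [hsplit]
            exact List.mem_append_right _ (List.mem_cons_of_mem _ (List.mem_reverse.2 hl'))
          obtain ⟨ha1, ha2⟩ := walk_sound h _ _ _ hsub1 hn ha
          obtain ⟨hb1, hb2⟩ := walk_sound h _ _ _ hsub2 hn hb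
          have hrun : run c w (pt n) = pt n := by
            by_cases hr : w ∈ rels
            · exact hrel _ hr _
            · exfalso
              have : ∀ (rs : List (List Nat)) (r : Nat), rel rs r ∉ rs → rel rs r = [] := by
                intro rs
                induction rs with
                | nil => intro r _; rfl
                | cons u us ih =>
                  intro r hr
                  cases r with
                  | zero => simp [rel] at hr
                  | succ r =>
                    simp only [rel, List.mem_cons, not_or] at hr
                    exact ih r hr.2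
              have h0 := this rels r hr
              rw [← hwdef] at h0
              rw [h0] at hl
              simp [nth] at hl
          have key : c (nth K w i) (pt a) = pt b := by
            apply run_inj c hc (revPost w i []).reverse
            have e1 : run c (revPost w i []).reverse (c (nth K w i) (pt a)) = pt n := by
              rw [← ha2]
              conv_rhs => rw [← hrun, hsplit, run_append]
              rfl
            have e2 : run c (revPost w i []).reverse (pt b) = pt n := by
              rw [← hb2]
              have := run_reverse c hc (revPost w i []).reverse (pt n)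
              rwa [List.reverse_reverse] at this
            rw [e1, e2]
          have h2 := h.put (n := a) (l := nth K w i) (m := b) hl ha1 hb1 key
          have h3 := h2.put (n := b) (l := nth K w i) (m := a) hl hb1 ha1
            (by rw [← key, hc])
          exact process_sound hc hrel fuel K ss _ N pt hN h3

/-- The main theorem. -/
theorem exists_pt {c : Nat → V → V} (hc : ∀ l x, c l (c l x) = x) {rels : List (List Nat)}
    (hrel : ∀ w ∈ rels, ∀ x, run c w x = x) (fuel K : Nat) (ss : List (Nat × Nat × Nat)) (x : V) :
    ∃ pt : Nat → V, pt 0 = x ∧ ∀ n l m, l < K →
      (process rels fuel K ss NT.nil 1).get fuel (n * K + l) = m + 1 → c l (pt n) = pt m := by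
  obtain ⟨pt, N, h0, h⟩ := process_sound hc hrel fuel K ss NT.nil 1 (fun _ => x) (by omega)
    (ok_nil _ _ _ _ _)
  exact ⟨pt, h0, fun n l m hl e => h.entry hl e⟩

end Pool.Agent.BG.Tab
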